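import Pool.Agent.H63.CB.Dim

/-!
Covers by balls at dyadic scales: upper bounds for the upper box dimension and for the Hausdorff
dimension.
-/

set_option autoImplicit false

namespace Pool.Agent.H63.CB

open Filter Topology Set MeasureTheory
open scoped ENNReal NNReal

/-- `A` is covered by at most `M` closed balls of radius `r`. -/
def Cov {X : Type*} [PseudoMetricSpace X] (A : Set X) (r : ℝ) (M : ℕ) : Prop :=
  ∃ F : Finset X, F.card ≤ M ∧ ∀ a ∈ A, ∃ c ∈ F, dist a c ≤ r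

lemma Cov.mono {X : Type*} [PseudoMetricSpace X] {A B : Set X} {r r' : ℝ} {M M' : ℕ} (h : Cov A r M)
    (hB : B ⊆ A) (hr : r ≤ r') (hM : M ≤ M') : Cov B r' M' := by
  obtain ⟨F, hF, h⟩ := h
  refine ⟨F, hF.trans hM, fun a ha => ?_⟩
  obtain ⟨c, hc, hd⟩ := h a (hB ha)
  exact ⟨c, hc, hd.trans hr⟩

lemma Cov.union {X : Type*} [PseudoMetricSpace X] {A B : Set X} {r : ℝ} {M M' : ℕ} (h : Cov A r M)
    (h' : Cov B r M') : Cov (A ∪ B) r (M + M') := by
  classical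
  obtain ⟨F, hF, h⟩ := h
  obtain ⟨F', hF', h'⟩ := h'
  refine ⟨F ∪ F', (Finset.card_union_le _ _).trans (add_le_add hF hF'), ?_⟩
  rintro a (ha | ha)
  · obtain ⟨c, hc, hd⟩ := h a ha
    exact ⟨c, Finset.mem_union_left _ hc, hd⟩
  · obtain ⟨c, hc, hd⟩ := h' a ha
    exact ⟨c, Finset.mem_union_right _ hc, hd⟩

lemma Cov.iUnion {X ι : Type*} [PseudoMetricSpace X] [Fintype ι] {A : ι → Set X} {r : ℝ} {M : ℕ}
    (h : ∀ i, Cov (A i) r M) : Cov (⋃ i, A i) r (Fintype.card ι * M) := by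
  classical
  choose F hF h using h
  refine ⟨Finset.univ.biUnion F, ?_, ?_⟩
  · refine Finset.card_biUnion_le.trans ?_
    refine (Finset.sum_le_card_nsmul _ _ M fun i _ => hF i).trans ?_
    simp
  · intro a ha
    obtain ⟨i, hi⟩ := mem_iUnion.1 ha
    obtain ⟨c, hc, hd⟩ := h i a hi
    exact ⟨c, Finset.mem_biUnion.2 ⟨i, Finset.mem_univ _, hc⟩, hd⟩

lemma Cov.extCov {X : Type*} [PseudoMetricSpace X] {A : Set X} {δ : ℝ≥0} {r : ℝ} {M : ℕ}
    (h : Cov A r M) (hr : r ≤ δ) : Metric.externalCoveringNumber δ A ≤ (M : ℕ∞) := by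
  obtain ⟨F, hF, h⟩ := h
  have h1 : Metric.IsCover δ A (F : Set X) := by
    intro a ha
    obtain ⟨c, hc, hd⟩ := h a ha
    refine ⟨c, hc, ?_⟩
    change edist a c ≤ δ
    rw [edist_dist]
    calc ENNReal.ofReal (dist a c) ≤ ENNReal.ofReal (δ : ℝ) := ENNReal.ofReal_le_ofReal (hd.trans hr)
      _ = δ := by simp
  refine h1.externalCoveringNumber_le_encard.trans ?_
  rw [Set.encard_coe_eq_coe_finsetCard]
  exact_mod_cast hF

/-- the hypothesis on covers, all large scales -/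
def CovAll {X : Type*} [PseudoMetricSpace X] (A : Set X) (C s : ℝ) : Prop :=
  ∀ ε : ℝ, 0 < ε → ∀ᶠ N : ℕ in atTop, ∃ M : ℕ, (M : ℝ) ≤ (2 : ℝ) ^ ((s + ε) * N) ∧
    Cov A (C * ((2 : ℝ) ^ N)⁻¹) M

/-- the hypothesis on covers, infinitely many scales -/
def CovInf {X : Type*} [PseudoMetricSpace X] (A : Set X) (C s : ℝ) : Prop :=
  ∀ ε : ℝ, 0 < ε → ∃ᶠ N : ℕ in atTop, ∃ M : ℕ, (M : ℝ) ≤ (2 : ℝ) ^ ((s + ε) * N) ∧
    Cov A (C * ((2 : ℝ) ^ N)⁻¹) M

lemma upperBoxDim_le_of_covAll {X : Type*} [PseudoMetricSpace X] {A : Set X} {s C : ℝ} (hs : 0 ≤ s)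
    (hC : 0 < C) (h : CovAll A C s) : upperBoxDim A ≤ (s : EReal) := by
  apply upperBoxDim_le_of_eventually
  intro u hu
  set ε : ℝ := (u - s) / 2 with hε
  have hεpos : 0 < ε := by rw [hε]; linarith
  obtain ⟨N0, hN0⟩ := eventually_atTop.1 (h ε hεpos)
  have hlog : Tendsto (fun δ : ℝ≥0 => Real.log (δ : ℝ)) (𝓝[>] (0 : ℝ≥0)) atBot := by
    refine Real.tendsto_log_nhdsGT_zero.comp ?_
    rw [tendsto_nhdsWithin_iff]
    constructor
    · have h1 : Tendsto (fun δ : ℝ≥0 => (δ : ℝ)) (𝓝 (0 : ℝ≥0)) (𝓝 ((0 : ℝ≥0) : ℝ)) :=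
        NNReal.continuous_coe.tendsto 0
      exact h1.mono_left nhdsWithin_le_nhds
    · filter_upwards [self_mem_nhdsWithin] with δ hδ
      exact_mod_cast hδ
  have h2 : ∀ᶠ δ in 𝓝[>] (0 : ℝ≥0), δ ∈ Ioo (0 : ℝ≥0) 1 := Ioo_mem_nhdsGT (by norm_num)
  have h3 := hlog.eventually_le_atBot (Real.log C - (N0 : ℝ) * Real.log 2)
  have h4 := hlog.eventually_le_atBot (-((s + ε) * Real.log (2 * C) / ε))
  filter_upwards [h2, h3, h4] with δ hδ hδ3 hδ4
  have h0 : (0 : ℝ) < (δ : ℝ) := by exact_mod_cast hδ.1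
  have hl2 : 0 < Real.log 2 := Real.log_pos (by norm_num)
  set L : ℝ := (Real.log C - Real.log δ) / Real.log 2 with hL
  set N : ℕ := ⌈L⌉₊ with hN
  have hN1 : L ≤ N := Nat.le_ceil L
  have hLN0 : (N0 : ℝ) ≤ L := by
    rw [hL, le_div_iff₀ hl2]
    linarith
  have hL0 : 0 ≤ L := le_trans (Nat.cast_nonneg _) hLN0
  have hN2 : (N : ℝ) < L + 1 := Nat.ceil_lt_add_one hL0
  have hNN : N0 ≤ N := by exact_mod_cast hLN0.trans hN1
  obtain ⟨M, hM, hcov⟩ := hN0 N hNN
  have hrad : C * ((2 : ℝ) ^ N)⁻¹ ≤ δ := by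
    rw [← div_eq_mul_inv, div_le_iff₀ (by positivity), ← Real.log_le_log_iff hC (by positivity),
      Real.log_mul h0.ne' (by positivity), Real.log_pow]
    have : L * Real.log 2 ≤ N * Real.log 2 := by gcongr
    rw [hL, div_mul_cancel₀ _ hl2.ne'] at this
    linarith
  have hM2 : (M : ℝ) ≤ (δ : ℝ) ^ (-u) := by
    refine hM.trans ?_
    rw [Real.rpow_def_of_pos (by norm_num : (0 : ℝ) < 2), Real.rpow_def_of_pos h0]
    apply Real.exp_le_exp.2
    have h5 : Real.log 2 * ((s + ε) * N) ≤ Real.log 2 * ((s + ε) * (L + 1)) := by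
      have : 0 ≤ s + ε := by linarith
      gcongr
    refine h5.trans ?_
    have h6 : Real.log 2 * ((s + ε) * (L + 1)) = (s + ε) * (Real.log C - Real.log δ + Real.log 2) := by
      rw [hL]
      field_simp
    rw [h6]
    have h7 : Real.log (2 * C) = Real.log 2 + Real.log C := Real.log_mul (by norm_num) hC.ne'
    have h8 : (s + ε) * Real.log (2 * C) ≤ ε * (-Real.log δ) := by
      have : (s + ε) * Real.log (2 * C) / ε ≤ - Real.log δ := by linarith
      rw [div_le_iff₀ hεpos] at this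
      linarith
    have h9 : u = s + 2 * ε := by rw [hε]; ring
    rw [h7] at h8
    rw [h9]
    nlinarith
  have h10 := hcov.extCov hrad
  calc ((Metric.externalCoveringNumber δ A : ℕ∞) : ℝ≥0∞) ≤ ((M : ℕ∞) : ℝ≥0∞) := by exact_mod_cast h10
    _ = ENNReal.ofReal (M : ℝ) := by simp
    _ ≤ ENNReal.ofReal ((δ : ℝ) ^ (-u)) := ENNReal.ofReal_le_ofReal hM2
    _ = (δ : ℝ≥0∞) ^ (-u) := by
      rw [← ENNReal.ofReal_rpow_of_pos h0]
      simp

private lemma ediam_ball_le {X : Type*} [PseudoMetricSpace X] (x : X) {r : ℝ} :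
    Metric.ediam (Metric.closedBall x r) ≤ ENNReal.ofReal (2 * r) := by
  have h1 : Metric.closedBall x r ⊆ Metric.closedEBall x (ENNReal.ofReal r) := by
    intro y hy
    rw [Metric.mem_closedBall] at hy
    rw [Metric.mem_closedEBall, edist_dist]
    exact ENNReal.ofReal_le_ofReal hy
  refine (Metric.ediam_mono h1).trans (Metric.ediam_closedEBall_le.trans (le_of_eq ?_))
  rw [ENNReal.ofReal_mul (by norm_num : (0 : ℝ) ≤ 2)]
  simp

lemma dimH_le_of_covInf {X : Type*} [MetricSpace X] {A : Set X} {s C : ℝ} (hs : 0 ≤ s)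
    (hC : 0 < C) (h : CovInf A C s) : ((dimH A : ℝ≥0∞) : EReal) ≤ (s : EReal) := by
  borelize X
  have key : ∀ d : ℝ≥0, s < d → dimH A ≤ d := by
    intro d hd
    set ε : ℝ := d - s with hε
    have hεpos : 0 < ε := by rw [hε]; linarith
    obtain ⟨φ, hφ, hp⟩ := extraction_of_frequently_atTop (h ε hεpos)
    choose M hM hcov using hp
    choose F hF hcov using hcov
    apply dimH_le_of_hausdorffMeasure_ne_top
    set r : ℕ → ℝ≥0∞ := fun n => ENNReal.ofReal (2 * C * ((2 : ℝ) ^ (φ n))⁻¹) with hr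
    have hr0 : Tendsto r atTop (𝓝 0) := by
      rw [hr]
      have h1 : Tendsto (fun n => 2 * C * ((2 : ℝ) ^ (φ n))⁻¹) atTop (𝓝 0) := by
        have h2 : Tendsto (fun n : ℕ => ((2 : ℝ) ^ n)⁻¹) atTop (𝓝 0) :=
          tendsto_inv_atTop_zero.comp (tendsto_pow_atTop_atTop_of_one_lt (by norm_num))
        have h3 := (h2.comp hφ.tendsto_atTop).const_mul (2 * C)
        simpa using h3
      have h4 := ENNReal.tendsto_ofReal h1
      simpa using h4
    have hle := Measure.hausdorffMeasure_le_liminf_sum (X := X) (ι := fun n => {x // x ∈ F n}) (d : ℝ) A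
      (l := atTop) r hr0 (fun n i => Metric.closedBall (i : X) (C * ((2 : ℝ) ^ (φ n))⁻¹))
      (Eventually.of_forall fun n i => by
        have h0 := ediam_ball_le (i : X) (r := C * ((2 : ℝ) ^ (φ n))⁻¹)
        rw [← mul_assoc] at h0
        exact h0)
      (Eventually.of_forall fun n a ha => by
        obtain ⟨c, hc, hd⟩ := hcov n a ha
        exact mem_iUnion.2 ⟨⟨c, hc⟩, hd⟩)
    refine ne_top_of_le_ne_top ?_ hle
    refine ne_top_of_le_ne_top (b := ENNReal.ofReal ((2 * C) ^ (d : ℝ))) ENNReal.ofReal_ne_top ?_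
    apply liminf_le_of_le
    · isBoundedDefault
    · intro b hb
      obtain ⟨n, hn⟩ := hb.exists
      refine hn.trans ?_
      have h1 : ∀ i : {x // x ∈ F n}, Metric.ediam (Metric.closedBall (i : X) (C * ((2 : ℝ) ^ (φ n))⁻¹)) ^ (d : ℝ) ≤
          ENNReal.ofReal (2 * C * ((2 : ℝ) ^ (φ n))⁻¹) ^ (d : ℝ) := by
        intro i
        apply ENNReal.rpow_le_rpow _ (NNReal.coe_nonneg d)
        have h0 := ediam_ball_le (i : X) (r := C * ((2 : ℝ) ^ (φ n))⁻¹)
        rw [← mul_assoc] at h0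
        exact h0
      refine (Finset.sum_le_sum fun i _ => h1 i).trans ?_
      rw [Finset.sum_const, nsmul_eq_mul, Finset.card_univ, Fintype.card_coe]
      rw [ENNReal.ofReal_rpow_of_pos (by positivity)]
      have h2 : ((F n).card : ℝ≥0∞) = ENNReal.ofReal ((F n).card : ℝ) := by simp
      rw [h2, ← ENNReal.ofReal_mul (by positivity)]
      apply ENNReal.ofReal_le_ofReal
      have h3 : ((F n).card : ℝ) ≤ (2 : ℝ) ^ ((s + ε) * (φ n : ℕ)) := by
        refine le_trans ?_ (hM n)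
        exact_mod_cast hF n
      have h4 : s + ε = d := by rw [hε]; ring
      rw [h4] at h3
      have h5 : (2 * C * ((2 : ℝ) ^ (φ n))⁻¹) ^ (d : ℝ) = (2 * C) ^ (d : ℝ) * ((2 : ℝ) ^ ((d : ℝ) * (φ n : ℕ)))⁻¹ := by
        rw [Real.mul_rpow (by positivity) (by positivity), Real.inv_rpow (by positivity)]
        congr 2
        rw [← Real.rpow_natCast, ← Real.rpow_mul (by norm_num)]
        congr 1
        ring
      rw [h5]
      have h6 : (0 : ℝ) < (2 : ℝ) ^ ((d : ℝ) * (φ n : ℕ)) := by positivity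
      calc ((F n).card : ℝ) * ((2 * C) ^ (d : ℝ) * ((2 : ℝ) ^ ((d : ℝ) * (φ n : ℕ)))⁻¹)
          ≤ (2 : ℝ) ^ ((d : ℝ) * (φ n : ℕ)) * ((2 * C) ^ (d : ℝ) * ((2 : ℝ) ^ ((d : ℝ) * (φ n : ℕ)))⁻¹) := by
            gcongr
        _ = (2 * C) ^ (d : ℝ) := by field_simp
  by_contra hcon
  push Not at hcon
  obtain ⟨x, hx1, hx2⟩ := EReal.lt_iff_exists_real_btwn.1 hcon
  have hx1' : s < x := by exact_mod_cast hx1
  have h1 := key (Real.toNNReal x) (by rw [Real.coe_toNNReal _ (by linarith)]; exact hx1')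
  have h2 : ((x : ℝ) : EReal) = (((Real.toNNReal x : ℝ≥0) : ℝ≥0∞) : EReal) := by
    conv_lhs => rw [← Real.coe_toNNReal x (by linarith)]
    rfl
  rw [h2] at hx2
  have h3 : ((Real.toNNReal x : ℝ≥0) : ℝ≥0∞) < dimH A := by exact_mod_cast hx2
  exact absurd h3 (not_lt.2 h1)

end Pool.Agent.H63.CB
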