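import Mathlib

/-!
Definitions: the boundary of the unit cube, size cube packings, upper box dimension and packing
dimension.
-/

set_option autoImplicit false

namespace Pool.Agent.H63.CB

open Filter Topology Set MeasureTheory
open scoped ENNReal NNReal

/-- `K`: the boundary of the unit cube `[0,1]^n`, i.e. the union of its `(n-1)`-dimensional faces. -/
def cubeBoundary (n : ℕ) : Set (EuclideanSpace ℝ (Fin n)) :=
  {x | (∀ i, x i ∈ Icc (0 : ℝ) 1) ∧ ∃ i, x i = 0 ∨ x i = 1}

/-- `G = T(f)`: the union over `t ∈ (0,1)` of the sets `t K + f(t)`. -/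
def packing {n : ℕ} (f : Ioo (0 : ℝ) 1 → EuclideanSpace ℝ (Fin n)) : Set (EuclideanSpace ℝ (Fin n)) :=
  ⋃ t : Ioo (0 : ℝ) 1, (fun y => (t : ℝ) • y + f t) '' cubeBoundary n

/-- Upper box-counting dimension: `limsup` as `δ → 0+` of `log N_δ(A) / log (1/δ)`, where `N_δ(A)` is the
minimal number of closed balls of radius `δ` covering `A`. -/
noncomputable def upperBoxDim {X : Type*} [PseudoEMetricSpace X] (A : Set X) : EReal :=
  limsup (fun δ : ℝ≥0 => ENNReal.log ((Metric.externalCoveringNumber δ A : ℕ∞) : ℝ≥0∞) /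
    ((Real.log (1 / (δ : ℝ)) : ℝ) : EReal)) (𝓝[>] (0 : ℝ≥0))

/-- Packing dimension, in its usual form as modified upper box-counting dimension: the infimum over
all countable covers `A ⊆ ⋃ i, s i` of the supremum of the upper box-counting dimensions of the
sets `s i`. -/
noncomputable def packDim {X : Type*} [PseudoEMetricSpace X] (A : Set X) : EReal :=
  ⨅ (s : ℕ → Set X) (_ : A ⊆ ⋃ i, s i), ⨆ i, upperBoxDim (s i)

end Pool.Agent.H63.CB
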