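import Mathlib

/-!
Sets of digits with prescribed lower and upper density.
-/

set_option autoImplicit false

namespace Pool.Agent.H63.CB

open Filter Topology Set

/-- the number of elements of `S` below `N` -/
noncomputable def cnt (S : Set ℕ) (N : ℕ) : ℕ := by
  classical
  exact ((Finset.range N).filter (fun k => k ∈ S)).card

lemma cnt_succ (S : Set ℕ) (N : ℕ) [Decidable (N ∈ S)] :
    cnt S (N + 1) = cnt S N + if N ∈ S then 1 else 0 := by
  classical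
  unfold cnt
  rw [Finset.range_add_one, Finset.filter_insert]
  split_ifs with h
  · rw [Finset.card_insert_of_notMem (by simp)]
  · simp

lemma cnt_le (S : Set ℕ) (N : ℕ) : cnt S N ≤ N := by
  classical
  unfold cnt
  exact (Finset.card_filter_le _ _).trans (by simp)

lemma cnt_compl (S : Set ℕ) (N : ℕ) : cnt S N + cnt Sᶜ N = N := by
  classical
  unfold cnt
  have := Finset.card_filter_add_card_filter_not (s := Finset.range N) (fun k => k ∈ S)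
  simpa using this

/-- a set of integers whose counting function follows a function with increments in `[0,1]` -/
lemma exists_set (θ : ℕ → ℝ) (h0 : ∀ k, 0 ≤ θ k) (h1 : ∀ k, θ k ≤ 1) :
    ∃ S : Set ℕ, ∀ N, (cnt S N : ℝ) ≤ ∑ k ∈ Finset.range N, θ k ∧
      ∑ k ∈ Finset.range N, θ k - 1 < cnt S N := by
  classical
  set g : ℕ → ℝ := fun N => ∑ k ∈ Finset.range N, θ k with hg
  have hgs : ∀ N, g (N + 1) = g N + θ N := fun N => Finset.sum_range_succ _ _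
  have hg0 : ∀ N, 0 ≤ g N := fun N => Finset.sum_nonneg fun k _ => h0 k
  refine ⟨{k | ⌊g k⌋₊ < ⌊g (k + 1)⌋₊}, ?_⟩
  have key : ∀ N, cnt {k | ⌊g k⌋₊ < ⌊g (k + 1)⌋₊} N = ⌊g N⌋₊ := by
    intro N
    induction N with
    | zero => simp [cnt, hg]
    | succ N ih =>
      rw [cnt_succ, ih]
      have hle : ⌊g N⌋₊ ≤ ⌊g (N + 1)⌋₊ := Nat.floor_le_floor (by rw [hgs]; linarith [h0 N])
      have hle2 : ⌊g (N + 1)⌋₊ ≤ ⌊g N⌋₊ + 1 := by
        rw [← Nat.floor_add_one (hg0 N)]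
        exact Nat.floor_le_floor (by rw [hgs]; linarith [h1 N])
      split_ifs with h
      · have h' : ⌊g N⌋₊ < ⌊g (N + 1)⌋₊ := h
        omega
      · have h' : ¬ ⌊g N⌋₊ < ⌊g (N + 1)⌋₊ := h
        omega
  intro N
  rw [key N]
  constructor
  · exact Nat.floor_le (hg0 N)
  · have := Nat.lt_floor_add_one (g N)
    simp only [hg] at this ⊢
    linarith

/-- sets of integers with lower density `α` and upper density `β` -/
theorem exists_dens {α β : ℝ} (hα : 0 ≤ α) (hαβ : α ≤ β) (hβ : β ≤ 1) :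
    ∃ S : Set ℕ, ∀ ε : ℝ, 0 < ε →
      (∀ᶠ N : ℕ in atTop, (cnt S N : ℝ) ≤ (β + ε) * N) ∧
      (∀ᶠ N : ℕ in atTop, (cnt Sᶜ N : ℝ) ≤ (1 - α + ε) * N) ∧
      (∃ᶠ N : ℕ in atTop, (cnt S N : ℝ) ≤ (α + ε) * N) ∧
      (∃ᶠ N : ℕ in atTop, (cnt Sᶜ N : ℝ) ≤ (1 - β + ε) * N) := by
  set θ : ℕ → ℝ := fun k => if Even (Nat.log 2 (Nat.log 2 k)) then α else β with hθ
  have hθ1 : ∀ k, α ≤ θ k := fun k => by
    simp only [hθ]
    split_ifs
    · exact le_rfl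
    · exact hαβ
  have hθ2 : ∀ k, θ k ≤ β := fun k => by
    simp only [hθ]
    split_ifs
    · exact hαβ
    · exact le_rfl
  obtain ⟨S, hS⟩ := exists_set θ (fun k => hα.trans (hθ1 k)) (fun k => (hθ2 k).trans hβ)
  have hcompl : ∀ N : ℕ, (cnt Sᶜ N : ℝ) = N - cnt S N := fun N => by
    have := cnt_compl S N
    have h2 : (cnt S N : ℝ) + cnt Sᶜ N = N := by exact_mod_cast this
    linarith
  have hup : ∀ N : ℕ, ∑ k ∈ Finset.range N, θ k ≤ β * N := fun N => by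
    refine (Finset.sum_le_card_nsmul _ _ β fun k _ => hθ2 k).trans ?_
    simp [mul_comm]
  have hlow : ∀ N : ℕ, α * N ≤ ∑ k ∈ Finset.range N, θ k := fun N => by
    refine le_trans ?_ (Finset.card_nsmul_le_sum _ _ α fun k _ => hθ1 k)
    simp [mul_comm]
  -- the block structure
  have hT : ∀ j : ℕ, 2 ^ (2 ^ j) ≤ 2 ^ (2 ^ (j + 1)) := fun j =>
    Nat.pow_le_pow_right (by norm_num) (Nat.pow_le_pow_right (by norm_num) (Nat.le_succ j))
  have hblock : ∀ j : ℕ, ∀ k ∈ Finset.Ico (2 ^ (2 ^ j)) (2 ^ (2 ^ (j + 1))),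
      Nat.log 2 (Nat.log 2 k) = j := by
    intro j k hk
    rw [Finset.mem_Ico] at hk
    have hk0 : k ≠ 0 := by
      have : 0 < 2 ^ (2 ^ j) := by positivity
      omega
    have h1 : 2 ^ j ≤ Nat.log 2 k := Nat.le_log_of_pow_le (by norm_num) hk.1
    have h2 : Nat.log 2 k < 2 ^ (j + 1) := Nat.log_lt_of_lt_pow hk0 hk.2
    exact Nat.log_eq_of_pow_le_of_lt_pow h1 h2
  have hsplit : ∀ j : ℕ, ∑ k ∈ Finset.range (2 ^ (2 ^ (j + 1))), θ k =
      ∑ k ∈ Finset.range (2 ^ (2 ^ j)), θ k + ∑ k ∈ Finset.Ico (2 ^ (2 ^ j)) (2 ^ (2 ^ (j + 1))), θ k := by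
    intro j
    rw [Finset.range_eq_Ico, Finset.range_eq_Ico]
    exact (Finset.sum_Ico_consecutive _ (Nat.zero_le _) (hT j)).symm
  have hsq : ∀ j : ℕ, (2 : ℝ) ^ (2 ^ (j + 1)) = (2 : ℝ) ^ (2 ^ j) * (2 : ℝ) ^ (2 ^ j) := by
    intro j
    rw [← pow_add]
    congr 1
    rw [pow_succ]
    ring
  have hbig : ∀ B : ℝ, ∀ᶠ j : ℕ in atTop, B ≤ (2 : ℝ) ^ (2 ^ j) := by
    intro B
    have h1 : Tendsto (fun j : ℕ => (2 : ℝ) ^ (2 ^ j)) atTop atTop :=
      (tendsto_pow_atTop_atTop_of_one_lt (by norm_num : (1 : ℝ) < 2)).comp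
        (tendsto_pow_atTop_atTop_of_one_lt (by norm_num : 1 < 2))
    exact h1.eventually_ge_atTop B
  have hTtop : Tendsto (fun j : ℕ => 2 ^ (2 ^ j) : ℕ → ℕ) atTop atTop :=
    (tendsto_pow_atTop_atTop_of_one_lt (by norm_num : 1 < 2)).comp
      (tendsto_pow_atTop_atTop_of_one_lt (by norm_num : 1 < 2))
  refine ⟨S, fun ε hε => ⟨?_, ?_, ?_, ?_⟩⟩
  · refine Eventually.of_forall fun N => ?_
    have h1 := (hS N).1
    have h2 := hup N
    have h3 : (0 : ℝ) ≤ ε * N := by positivity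
    nlinarith
  · filter_upwards [eventually_ge_atTop ⌈1 / ε⌉₊] with N hN
    rw [hcompl]
    have h1 := (hS N).2
    have h2 := hlow N
    have h3 : 1 / ε ≤ N := (Nat.le_ceil _).trans (by exact_mod_cast hN)
    have h4 : 1 ≤ ε * N := by
      rw [div_le_iff₀ hε] at h3
      linarith
    nlinarith
  · -- ends of even blocks
    rw [frequently_atTop]
    intro a
    obtain ⟨j, hj⟩ := eventually_atTop.1 ((hTtop.eventually_ge_atTop a).and (hbig (2 / ε)))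
    have hj1 : ∀ i ≥ j, a ≤ 2 ^ (2 ^ i) := fun i hi => (hj i hi).1
    have hj2 : ∀ i ≥ j, 2 / ε ≤ (2 : ℝ) ^ (2 ^ i) := fun i hi => (hj i hi).2
    -- choose an even index
    obtain ⟨i, hi, hie⟩ : ∃ i, j ≤ i ∧ Even i := by
      rcases Nat.even_or_odd j with h | h
      · exact ⟨j, le_rfl, h⟩
      · exact ⟨j + 1, by omega, h.add_one⟩
    refine ⟨2 ^ (2 ^ (i + 1)), (hj1 i hi).trans (hT i), ?_⟩
    have h1 := (hS (2 ^ (2 ^ (i + 1)))).1
    rw [hsplit i] at h1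
    have h2 : ∑ k ∈ Finset.Ico (2 ^ (2 ^ i)) (2 ^ (2 ^ (i + 1))), θ k ≤ α * (2 : ℝ) ^ (2 ^ (i + 1)) := by
      have h3 : ∀ k ∈ Finset.Ico (2 ^ (2 ^ i)) (2 ^ (2 ^ (i + 1))), θ k ≤ α := by
        intro k hk
        simp only [hθ]
        rw [hblock i k hk, if_pos hie]
      refine (Finset.sum_le_card_nsmul _ _ α h3).trans ?_
      rw [Nat.card_Ico, nsmul_eq_mul, mul_comm]
      have h4 : ((2 ^ (2 ^ (i + 1)) - 2 ^ (2 ^ i) : ℕ) : ℝ) ≤ (2 : ℝ) ^ (2 ^ (i + 1)) := by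
        have : ((2 ^ (2 ^ (i + 1)) - 2 ^ (2 ^ i) : ℕ) : ℝ) ≤ ((2 ^ (2 ^ (i + 1)) : ℕ) : ℝ) := by
          exact_mod_cast Nat.sub_le _ _
        simpa using this
      gcongr
    have h3 : ∑ k ∈ Finset.range (2 ^ (2 ^ i)), θ k ≤ (2 : ℝ) ^ (2 ^ i) := by
      refine (hup _).trans ?_
      push_cast
      have : (0 : ℝ) < (2 : ℝ) ^ (2 ^ i) := by positivity
      nlinarith
    have h4 : 1 ≤ ε * (2 : ℝ) ^ (2 ^ i) := by
      have := hj2 i hi
      rw [div_le_iff₀ hε] at this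
      linarith
    push_cast
    have h5 := hsq i
    have h6 : (0 : ℝ) < (2 : ℝ) ^ (2 ^ i) := by positivity
    nlinarith
  · rw [frequently_atTop]
    intro a
    obtain ⟨j, hj⟩ := eventually_atTop.1 ((hTtop.eventually_ge_atTop a).and (hbig (2 / ε)))
    have hj1 : ∀ i ≥ j, a ≤ 2 ^ (2 ^ i) := fun i hi => (hj i hi).1
    have hj2 : ∀ i ≥ j, 2 / ε ≤ (2 : ℝ) ^ (2 ^ i) := fun i hi => (hj i hi).2
    obtain ⟨i, hi, hie⟩ : ∃ i, j ≤ i ∧ ¬ Even i := by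
      rcases Nat.even_or_odd j with h | h
      · exact ⟨j + 1, by omega, Nat.not_even_iff_odd.2 h.add_one⟩
      · exact ⟨j, le_rfl, Nat.not_even_iff_odd.2 h⟩
    refine ⟨2 ^ (2 ^ (i + 1)), (hj1 i hi).trans (hT i), ?_⟩
    rw [hcompl]
    have h1 := (hS (2 ^ (2 ^ (i + 1)))).2
    rw [hsplit i] at h1
    have h2 : β * ((2 : ℝ) ^ (2 ^ (i + 1)) - (2 : ℝ) ^ (2 ^ i)) ≤
        ∑ k ∈ Finset.Ico (2 ^ (2 ^ i)) (2 ^ (2 ^ (i + 1))), θ k := by
      have h3 : ∀ k ∈ Finset.Ico (2 ^ (2 ^ i)) (2 ^ (2 ^ (i + 1))), β ≤ θ k := by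
        intro k hk
        simp only [hθ]
        rw [hblock i k hk, if_neg hie]
      refine le_trans ?_ (Finset.card_nsmul_le_sum _ _ β h3)
      rw [Nat.card_Ico, nsmul_eq_mul, Nat.cast_sub (hT i), mul_comm]
      push_cast
      exact le_rfl
    have h3 : 0 ≤ ∑ k ∈ Finset.range (2 ^ (2 ^ i)), θ k :=
      Finset.sum_nonneg fun k _ => hα.trans (hθ1 k)
    have h4 : 2 ≤ ε * (2 : ℝ) ^ (2 ^ i) := by
      have := hj2 i hi
      rw [div_le_iff₀ hε] at this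
      linarith
    push_cast
    have h5 := hsq i
    have h6 : (1 : ℝ) ≤ (2 : ℝ) ^ (2 ^ i) := one_le_pow₀ (by norm_num)
    have h7 : β * (2 : ℝ) ^ (2 ^ i) ≤ (2 : ℝ) ^ (2 ^ i) := by nlinarith
    nlinarith

end Pool.Agent.H63.CB
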