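import Pool.Agent.H63.CB.Cov
import Pool.Agent.H63.CB.Dens

/-!
Sets of reals with binary digits in a given set of places, and slabs over them.
-/

set_option autoImplicit false

namespace Pool.Agent.H63.CB

open Filter Topology Set
open scoped ENNReal NNReal

/-- the numbers in `[0,1]` with a binary expansion whose digits vanish outside `S` -/
def dig (S : Set ℕ) : Set ℝ :=
  {x | ∃ d : ℕ → Fin 2, (∀ k, k ∉ S → d k = 0) ∧ Real.ofDigits d = x}

lemma dig_subset (S : Set ℕ) : dig S ⊆ Icc 0 1 := by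
  rintro x ⟨d, _, rfl⟩
  exact ⟨Real.ofDigits_nonneg d, Real.ofDigits_le_one d⟩

lemma zero_mem_dig (S : Set ℕ) : (0 : ℝ) ∈ dig S := by
  refine ⟨fun _ => 0, fun _ _ => rfl, ?_⟩
  simp [Real.ofDigits, Real.ofDigitsTerm]

lemma dig_add (S : Set ℕ) {t : ℝ} (ht : t ∈ Icc (0 : ℝ) 1) :
    ∃ a ∈ dig Sᶜ, ∃ b ∈ dig S, a + b = t := by
  classical
  obtain ⟨d, _, hd⟩ := Real.ofDigits_SurjOn (b := 2) (by norm_num) ht
  refine ⟨Real.ofDigits (fun k => if k ∈ S then 0 else d k), ⟨_, ?_, rfl⟩,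
    Real.ofDigits (fun k => if k ∈ S then d k else 0), ⟨_, ?_, rfl⟩, ?_⟩
  · intro k hk
    have : k ∈ S := by simpa using hk
    simp [this]
  · intro k hk
    simp [hk]
  · rw [← hd]
    unfold Real.ofDigits
    rw [← Summable.tsum_add Real.summable_ofDigitsTerm Real.summable_ofDigitsTerm]
    congr 1
    ext k
    unfold Real.ofDigitsTerm
    by_cases hk : k ∈ S <;> simp [hk]

lemma dig_cov (S : Set ℕ) (N : ℕ) : Cov (dig S) (((2 : ℝ) ^ N)⁻¹) (2 ^ (cnt S N)) := by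
  classical
  refine ⟨(((Finset.range N).filter (fun k => k ∈ S)).powerset).image
    (fun T => ∑ k ∈ T, ((2 : ℝ) ^ (k + 1))⁻¹), ?_, ?_⟩
  · refine Finset.card_image_le.trans ?_
    rw [Finset.card_powerset]
    exact le_of_eq (by simp [cnt])
  · rintro x ⟨d, hd, rfl⟩
    refine ⟨∑ k ∈ (Finset.range N).filter (fun k => d k = 1), ((2 : ℝ) ^ (k + 1))⁻¹, ?_, ?_⟩
    · refine Finset.mem_image.2 ⟨_, ?_, rfl⟩
      rw [Finset.mem_powerset]
      intro k hk
      rw [Finset.mem_filter] at hk ⊢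
      refine ⟨hk.1, ?_⟩
      by_contra hkS
      rw [hd k hkS] at hk
      simp at hk
    · rw [Real.ofDigits_eq_sum_add_ofDigits d N]
      have h1 : ∑ i ∈ Finset.range N, Real.ofDigitsTerm d i =
          ∑ k ∈ (Finset.range N).filter (fun k => d k = 1), ((2 : ℝ) ^ (k + 1))⁻¹ := by
        rw [Finset.sum_filter]
        refine Finset.sum_congr rfl fun k _ => ?_
        unfold Real.ofDigitsTerm
        have h2 : d k = 0 ∨ d k = 1 := by omega
        rcases h2 with h | h <;> simp [h]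
      rw [h1, Real.dist_eq, add_sub_cancel_left, abs_of_nonneg (by
        have := Real.ofDigits_nonneg (fun i => d (i + N))
        positivity)]
      have h3 := Real.ofDigits_le_one (fun i => d (i + N))
      have h4 : (0 : ℝ) < ((2 : ℝ) ^ N)⁻¹ := by positivity
      calc (((2 : ℕ) : ℝ) ^ N)⁻¹ * Real.ofDigits (fun i => d (i + N)) ≤ (((2 : ℕ) : ℝ) ^ N)⁻¹ * 1 := by
            gcongr
        _ = ((2 : ℝ) ^ N)⁻¹ := by norm_num

lemma Cov.image {X Y : Type*} [PseudoMetricSpace X] [PseudoMetricSpace Y] {A : Set X} {r : ℝ} {M : ℕ}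
    (h : Cov A r M) (f : X → Y) (hf : ∀ x y, dist (f x) (f y) ≤ dist x y) : Cov (f '' A) r M := by
  classical
  obtain ⟨F, hF, h⟩ := h
  refine ⟨F.image f, Finset.card_image_le.trans hF, ?_⟩
  rintro _ ⟨a, ha, rfl⟩
  obtain ⟨c, hc, hd⟩ := h a ha
  exact ⟨f c, Finset.mem_image_of_mem f hc, (hf a c).trans hd⟩

/-- slabs -/
def slab {m : ℕ} (i : Fin (m + 1)) (E : Set ℝ) : Set (EuclideanSpace ℝ (Fin (m + 1))) :=
  {x | x i ∈ E ∧ ∀ j, x j ∈ Icc (0 : ℝ) 2}

lemma Cov.slab {m : ℕ} (i : Fin (m + 1)) {E : Set ℝ} {N M : ℕ} (h : Cov E (((2 : ℝ) ^ N)⁻¹) M) :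
    Cov (slab i E) (((m : ℝ) + 1) * ((2 : ℝ) ^ N)⁻¹) (M * (2 ^ (N + 2)) ^ m) := by
  classical
  obtain ⟨F, hF, h⟩ := h
  set g : Finset ℝ := (Finset.range (2 ^ (N + 2))).image (fun k : ℕ => (k : ℝ) * ((2 : ℝ) ^ N)⁻¹) with hg
  have hgc : g.card ≤ 2 ^ (N + 2) := by
    refine Finset.card_image_le.trans ?_
    simp
  have hgd : ∀ y ∈ Icc (0 : ℝ) 2, ∃ c ∈ g, |y - c| ≤ ((2 : ℝ) ^ N)⁻¹ := by
    intro y hy
    have hp : (0 : ℝ) < (2 : ℝ) ^ N := by positivity
    refine ⟨(⌊y * 2 ^ N⌋₊ : ℝ) * ((2 : ℝ) ^ N)⁻¹, ?_, ?_⟩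
    · refine Finset.mem_image.2 ⟨⌊y * 2 ^ N⌋₊, ?_, rfl⟩
      rw [Finset.mem_range, Nat.floor_lt (by have := hy.1; positivity)]
      push_cast
      rw [pow_add]
      nlinarith [hy.2]
    · have h1 := Nat.floor_le (a := y * 2 ^ N) (by have := hy.1; positivity)
      have h2 := Nat.lt_floor_add_one (y * 2 ^ N)
      have h3 : y - (⌊y * 2 ^ N⌋₊ : ℝ) * ((2 : ℝ) ^ N)⁻¹ = (y * 2 ^ N - ⌊y * 2 ^ N⌋₊) * ((2 : ℝ) ^ N)⁻¹ := by
        field_simp
      rw [h3, abs_of_nonneg (by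
        apply mul_nonneg
        · linarith
        · positivity)]
      have h4 : (0 : ℝ) < ((2 : ℝ) ^ N)⁻¹ := by positivity
      nlinarith
  set P : Fin (m + 1) → Finset ℝ := fun j => if j = i then F else g with hP
  refine ⟨(Fintype.piFinset P).image (fun c => WithLp.toLp 2 c), ?_, ?_⟩
  · refine Finset.card_image_le.trans ?_
    rw [Fintype.card_piFinset, ← Finset.mul_prod_erase _ _ (Finset.mem_univ i)]
    have h1 : (P i).card ≤ M := by simpa [hP] using hF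
    have h2 : ∏ j ∈ Finset.univ.erase i, (P j).card ≤ (2 ^ (N + 2)) ^ m := by
      have h3 : ∏ j ∈ Finset.univ.erase i, (P j).card ≤ ∏ _j ∈ Finset.univ.erase i, 2 ^ (N + 2) := by
        apply Finset.prod_le_prod'
        intro j hj
        have : j ≠ i := (Finset.mem_erase.1 hj).1
        simpa [hP, this] using hgc
      refine h3.trans ?_
      rw [Finset.prod_const, Finset.card_erase_of_mem (Finset.mem_univ i)]
      simp
    exact Nat.mul_le_mul h1 h2
  · rintro x ⟨hx1, hx2⟩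
    have h1 : ∀ j, ∃ c ∈ P j, |x j - c| ≤ ((2 : ℝ) ^ N)⁻¹ := by
      intro j
      by_cases hj : j = i
      · subst hj
        obtain ⟨c, hc, hd⟩ := h _ hx1
        exact ⟨c, by simpa [hP] using hc, by rwa [← Real.dist_eq]⟩
      · obtain ⟨c, hc, hd⟩ := hgd _ (hx2 j)
        exact ⟨c, by simpa [hP, hj] using hc, hd⟩
    choose c hc hd using h1
    refine ⟨WithLp.toLp 2 c, Finset.mem_image.2 ⟨c, Fintype.mem_piFinset.2 hc, rfl⟩, ?_⟩
    have hp : (0 : ℝ) < ((2 : ℝ) ^ N)⁻¹ := by positivity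
    rw [EuclideanSpace.dist_eq]
    apply Real.sqrt_le_iff.2
    constructor
    · positivity
    · have h2 : ∀ j ∈ (Finset.univ : Finset (Fin (m + 1))),
          dist (x j) ((WithLp.toLp 2 c : EuclideanSpace ℝ (Fin (m + 1))) j) ^ 2 ≤ (((2 : ℝ) ^ N)⁻¹) ^ 2 := by
        intro j _
        rw [Real.dist_eq]
        gcongr
        exact hd j
      refine (Finset.sum_le_card_nsmul _ _ _ h2).trans ?_
      rw [Finset.card_univ, Fintype.card_fin, nsmul_eq_mul, mul_pow]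
      push_cast
      have h3 : (m : ℝ) + 1 ≤ ((m : ℝ) + 1) ^ 2 := by
        have : (0 : ℝ) ≤ m := Nat.cast_nonneg m
        nlinarith
      gcongr

end Pool.Agent.H63.CB
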