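import Pool.Agent.H63.CB.Defs
import Pool.Agent.H47.CubeDim1

/-!
Upper box dimension, packing dimension and Hausdorff dimension: covers, monotonicity, products.
-/

set_option autoImplicit false

namespace Pool.Agent.H63.CB

open Filter Topology Set MeasureTheory
open scoped ENNReal NNReal

/-- reading off covering numbers from the upper box dimension -/
lemma eventually_cover {X : Type*} [PseudoEMetricSpace X] {A : Set X} (hA : A.Nonempty) {u : ℝ}
    (hu : upperBoxDim A < (u : EReal)) :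
    0 ≤ u ∧ ∀ᶠ δ in 𝓝[>] (0 : ℝ≥0),
      ((Metric.externalCoveringNumber δ A : ℕ∞) : ℝ≥0∞) < (δ : ℝ≥0∞) ^ (-u) := by
  have h1 := eventually_lt_of_limsup_lt hu
  have h2 : ∀ᶠ δ in 𝓝[>] (0 : ℝ≥0), δ ∈ Ioo (0 : ℝ≥0) 1 := Ioo_mem_nhdsGT (by norm_num)
  have hone : ∀ δ : ℝ≥0, (1 : ℝ≥0∞) ≤ ((Metric.externalCoveringNumber δ A : ℕ∞) : ℝ≥0∞) := by
    intro δ
    have h3 : 0 < Metric.externalCoveringNumber δ A := Metric.externalCoveringNumber_pos_iff.2 hA
    have h4 : 1 ≤ Metric.externalCoveringNumber δ A := Order.one_le_iff_pos.2 h3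
    exact_mod_cast h4
  have hL : ∀ δ ∈ Ioo (0 : ℝ≥0) 1, 0 < Real.log (1 / (δ : ℝ)) := by
    intro δ hδ
    have h0 : (0 : ℝ) < (δ : ℝ) := by exact_mod_cast hδ.1
    have h1 : (δ : ℝ) < 1 := by exact_mod_cast hδ.2
    apply Real.log_pos
    rw [lt_div_iff₀ h0]
    linarith
  constructor
  · obtain ⟨δ, hδ1, hδ2⟩ := (h1.and h2).exists
    have h3 : (0 : EReal) ≤ ENNReal.log ((Metric.externalCoveringNumber δ A : ℕ∞) : ℝ≥0∞) /
        ((Real.log (1 / (δ : ℝ)) : ℝ) : EReal) := by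
      apply EReal.div_nonneg
      · exact ENNReal.zero_le_log_iff.2 (hone δ)
      · exact_mod_cast (hL δ hδ2).le
    have h4 := lt_of_le_of_lt h3 hδ1
    exact_mod_cast h4.le
  · filter_upwards [h1, h2] with δ hδ1 hδ2
    have hLpos := hL δ hδ2
    rw [EReal.div_lt_iff (by exact_mod_cast hLpos) (EReal.coe_ne_top _)] at hδ1
    rw [← ENNReal.log_lt_log_iff, ENNReal.log_rpow, ENNReal.log_of_nnreal hδ2.1.ne']
    refine lt_of_lt_of_eq hδ1 ?_
    rw [← EReal.coe_mul, ← EReal.coe_mul]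
    congr 1
    rw [one_div, Real.log_inv]
    ring

/-- upper bound for the upper box dimension by covering numbers at all small scales -/
lemma upperBoxDim_le_of_eventually {X : Type*} [PseudoEMetricSpace X] {A : Set X} {s : ℝ}
    (h : ∀ u : ℝ, s < u → ∀ᶠ δ in 𝓝[>] (0 : ℝ≥0),
      ((Metric.externalCoveringNumber δ A : ℕ∞) : ℝ≥0∞) ≤ (δ : ℝ≥0∞) ^ (-u)) :
    upperBoxDim A ≤ (s : EReal) := by
  apply EReal.le_of_forall_lt_iff_le.1
  intro u hu
  have hu' : s < u := by exact_mod_cast hu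
  have h2 : ∀ᶠ δ in 𝓝[>] (0 : ℝ≥0), δ ∈ Ioo (0 : ℝ≥0) 1 := Ioo_mem_nhdsGT (by norm_num)
  apply limsup_le_of_le
  · isBoundedDefault
  · filter_upwards [h u hu', h2] with δ hδ1 hδ2
    have h0 : (0 : ℝ) < (δ : ℝ) := by exact_mod_cast hδ2.1
    have h1 : (δ : ℝ) < 1 := by exact_mod_cast hδ2.2
    have hLpos : 0 < Real.log (1 / (δ : ℝ)) := by
      apply Real.log_pos
      rw [lt_div_iff₀ h0]
      linarith
    rw [EReal.div_le_iff_le_mul (by exact_mod_cast hLpos) (EReal.coe_ne_top _)]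
    rw [← ENNReal.log_le_log_iff, ENNReal.log_rpow, ENNReal.log_of_nnreal hδ2.1.ne'] at hδ1
    refine hδ1.trans (le_of_eq ?_)
    rw [← EReal.coe_mul, ← EReal.coe_mul]
    congr 1
    rw [one_div, Real.log_inv]
    ring

lemma upperBoxDim_mono {X : Type*} [PseudoEMetricSpace X] {A B : Set X} (h : A ⊆ B) :
    upperBoxDim A ≤ upperBoxDim B := by
  have h2 : ∀ᶠ δ in 𝓝[>] (0 : ℝ≥0), δ ∈ Ioo (0 : ℝ≥0) 1 := Ioo_mem_nhdsGT (by norm_num)
  apply limsup_le_limsup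
  · filter_upwards [h2] with δ hδ2
    have h0 : (0 : ℝ) < (δ : ℝ) := by exact_mod_cast hδ2.1
    have h1 : (δ : ℝ) < 1 := by exact_mod_cast hδ2.2
    have hLpos : 0 < Real.log (1 / (δ : ℝ)) := by
      apply Real.log_pos
      rw [lt_div_iff₀ h0]
      linarith
    apply EReal.div_le_div_right_of_nonneg (by exact_mod_cast hLpos.le)
    apply ENNReal.log_monotone
    exact_mod_cast Metric.externalCoveringNumber_mono_set h
  · isBoundedDefault
  · isBoundedDefault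

lemma upperBoxDim_nonneg {X : Type*} [PseudoEMetricSpace X] {A : Set X} (hA : A.Nonempty) :
    0 ≤ upperBoxDim A := by
  by_contra hcon
  push Not at hcon
  have h1 : upperBoxDim A < ((0 : ℝ) : EReal) := by exact_mod_cast hcon
  obtain ⟨u, hu1, hu2⟩ := EReal.lt_iff_exists_real_btwn.1 h1
  have h2 := (eventually_cover hA hu1).1
  have h3 : u < 0 := by exact_mod_cast hu2
  linarith

lemma upperBoxDim_closure {X : Type*} [MetricSpace X] [ProperSpace X] (A : Set X) :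
    upperBoxDim (closure A) = upperBoxDim A := by
  apply le_antisymm _ (upperBoxDim_mono subset_closure)
  have h2 : ∀ᶠ δ in 𝓝[>] (0 : ℝ≥0), δ ∈ Ioo (0 : ℝ≥0) 1 := Ioo_mem_nhdsGT (by norm_num)
  apply limsup_le_limsup
  · filter_upwards [h2] with δ hδ2
    have h0 : (0 : ℝ) < (δ : ℝ) := by exact_mod_cast hδ2.1
    have h1 : (δ : ℝ) < 1 := by exact_mod_cast hδ2.2
    have hLpos : 0 < Real.log (1 / (δ : ℝ)) := by
      apply Real.log_pos
      rw [lt_div_iff₀ h0]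
      linarith
    apply EReal.div_le_div_right_of_nonneg (by exact_mod_cast hLpos.le)
    apply ENNReal.log_monotone
    have h3 : Metric.externalCoveringNumber δ (closure A) ≤ Metric.externalCoveringNumber δ A := by
      unfold Metric.externalCoveringNumber
      refine le_iInf₂ fun C hC => ?_
      by_cases hfin : C.Finite
      · exact iInf₂_le C ((Metric.isCover_closure hfin.isClosed).2 hC)
      · rw [Set.Infinite.encard_eq hfin]
        exact le_top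
    exact_mod_cast h3
  · isBoundedDefault
  · isBoundedDefault

lemma packDim_le_upperBoxDim {X : Type*} [PseudoEMetricSpace X] (A : Set X) :
    packDim A ≤ upperBoxDim A := by
  refine iInf₂_le_of_le (fun _ => A) ?_ ?_
  · intro x hx
    exact mem_iUnion.2 ⟨0, hx⟩
  · exact iSup_le fun _ => le_rfl

lemma packDim_mono {X : Type*} [PseudoEMetricSpace X] {A B : Set X} (h : A ⊆ B) :
    packDim A ≤ packDim B := by
  refine le_iInf₂ fun s hs => ?_
  exact iInf₂_le s (h.trans hs)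

/-- countable sets do not matter for the packing dimension -/
lemma packDim_union_countable {X : Type*} [MetricSpace X] {A B : Set X} {p : EReal} (s : ℕ → Set X)
    (hs : B ⊆ ⋃ i, s i) (hA : upperBoxDim A ≤ p) (hB : ∀ i, upperBoxDim (s i) ≤ p) :
    packDim (A ∪ B) ≤ p := by
  refine iInf₂_le_of_le (fun i => Nat.casesOn i A s) ?_ ?_
  · rintro x (hx | hx)
    · exact mem_iUnion.2 ⟨0, hx⟩
    · obtain ⟨i, hi⟩ := mem_iUnion.1 (hs hx)
      exact mem_iUnion.2 ⟨i + 1, hi⟩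
  · refine iSup_le fun i => ?_
    cases i with
    | zero => exact hA
    | succ i => exact hB i

/-- the product inequality -/
lemma prod_le {X Y : Type*} [EMetricSpace X] [EMetricSpace Y] {A : Set X} {B : Set Y}
    (hA : dimH A ≠ ⊤) (hB : B.Nonempty) :
    ((dimH (A ×ˢ B) : ℝ≥0∞) : EReal) ≤ ((dimH A : ℝ≥0∞) : EReal) + upperBoxDim B := by
  by_contra hcon
  push Not at hcon
  obtain ⟨h, hh⟩ : ∃ h : ℝ≥0, (h : ℝ≥0∞) = dimH A := ⟨(dimH A).toNNReal, ENNReal.coe_toNNReal hA⟩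
  rw [← hh] at hcon
  have hcast : (((h : ℝ≥0) : ℝ≥0∞) : EReal) = ((h : ℝ) : EReal) := rfl
  rw [hcast] at hcon
  obtain ⟨D, hD1, hD2⟩ := EReal.lt_iff_exists_real_btwn.1 hcon
  have hub : upperBoxDim B < ((D - h : ℝ) : EReal) := by
    by_contra hcon2
    push Not at hcon2
    have h5 : ((h : ℝ) : EReal) + ((D - h : ℝ) : EReal) ≤ ((h : ℝ) : EReal) + upperBoxDim B := by
      gcongr
    rw [← EReal.coe_add, add_sub_cancel] at h5
    exact absurd hD1 (not_lt.2 h5)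
  obtain ⟨u, hu1, hu2⟩ := EReal.lt_iff_exists_real_btwn.1 hub
  have hu2' : u < D - h := by exact_mod_cast hu2
  obtain ⟨hu0, hev⟩ := eventually_cover hB hu1
  obtain ⟨u', hu'⟩ : ∃ u' : ℝ≥0, (u' : ℝ) = u := ⟨Real.toNNReal u, Real.coe_toNNReal _ hu0⟩
  have hh0 : (0 : ℝ) ≤ (h : ℝ) := NNReal.coe_nonneg h
  obtain ⟨s, hs⟩ : ∃ s : ℝ≥0, (s : ℝ) = (h + (D - u)) / 2 :=
    ⟨Real.toNNReal _, Real.coe_toNNReal _ (by linarith)⟩
  have hs1 : dimH A < s := by
    rw [← hh]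
    have : (h : ℝ) < (s : ℝ) := by
      rw [hs]
      linarith
    exact_mod_cast this
  rw [← hu'] at hev
  have hprod := Pool.Agent.H47.CubeDim.dimH_prod_le (B := B) hs1 (u := u') hev
  have h6 : ((dimH (A ×ˢ B) : ℝ≥0∞) : EReal) ≤ (((s + u' : ℝ≥0) : ℝ≥0∞) : EReal) := by
    exact_mod_cast hprod
  have h7 : ((D : ℝ) : EReal) < (((s + u' : ℝ≥0) : ℝ≥0∞) : EReal) := hD2.trans_le h6
  have h8 : (((s + u' : ℝ≥0) : ℝ≥0∞) : EReal) = (((s : ℝ) + (u' : ℝ) : ℝ) : EReal) := rfl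
  rw [h8] at h7
  have h9 : D < (s : ℝ) + (u' : ℝ) := by exact_mod_cast h7
  rw [hs, hu'] at h9
  linarith

/-- Hausdorff dimension is at most upper box dimension -/
lemma dimH_le_upperBoxDim {Y : Type*} [EMetricSpace Y] {B : Set Y} (hB : B.Nonempty) :
    ((dimH B : ℝ≥0∞) : EReal) ≤ upperBoxDim B := by
  have h1 : dimH ({(0 : ℝ)} : Set ℝ) = 0 := dimH_singleton _
  have h2 := prod_le (A := ({(0 : ℝ)} : Set ℝ)) (B := B) (by rw [h1]; simp) hB
  rw [h1] at h2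
  have h3 : dimH B ≤ dimH (({(0 : ℝ)} : Set ℝ) ×ˢ B) := by
    have h4 : B ⊆ Prod.snd '' (({(0 : ℝ)} : Set ℝ) ×ˢ B) := by
      intro b hb
      exact ⟨(0, b), ⟨rfl, hb⟩, rfl⟩
    exact (dimH_mono h4).trans (LipschitzWith.prod_snd.dimH_image_le _)
  have h5 : ((dimH B : ℝ≥0∞) : EReal) ≤ ((dimH (({(0 : ℝ)} : Set ℝ) ×ˢ B) : ℝ≥0∞) : EReal) := by
    exact_mod_cast h3
  refine h5.trans (h2.trans ?_)
  simp

lemma dimH_le_packDim {Y : Type*} [EMetricSpace Y] {B : Set Y} (hB : B.Nonempty) :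
    ((dimH B : ℝ≥0∞) : EReal) ≤ packDim B := by
  refine le_iInf₂ fun s hs => ?_
  obtain ⟨b, hb⟩ := hB
  obtain ⟨i0, hi0⟩ := mem_iUnion.1 (hs hb)
  have h0 : 0 ≤ ⨆ i, upperBoxDim (s i) :=
    (upperBoxDim_nonneg ⟨b, hi0⟩).trans (le_iSup (fun i => upperBoxDim (s i)) i0)
  have h1 : dimH B ≤ ⨆ i, dimH (s i) := by
    rw [← dimH_iUnion]
    exact dimH_mono hs
  have h2 : ∀ i, ((dimH (s i) : ℝ≥0∞) : EReal) ≤ ⨆ i, upperBoxDim (s i) := by
    intro i
    rcases (s i).eq_empty_or_nonempty with he | hne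
    · rw [he, dimH_empty]
      simpa using h0
    · exact (dimH_le_upperBoxDim hne).trans (le_iSup (fun i => upperBoxDim (s i)) i)
  by_contra hcon
  push Not at hcon
  have h3 : (⨆ i, upperBoxDim (s i)) < ((⨆ i, dimH (s i) : ℝ≥0∞) : EReal) :=
    hcon.trans_le (by exact_mod_cast h1)
  obtain ⟨x, hx⟩ : ∃ x : ℝ≥0∞, (x : EReal) = ⨆ i, upperBoxDim (s i) :=
    ⟨(⨆ i, upperBoxDim (s i)).toENNReal, EReal.coe_toENNReal h0⟩
  rw [← hx] at h3 h2
  have h4 : ∀ i, dimH (s i) ≤ x := fun i => by exact_mod_cast h2 i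
  have h5 : (⨆ i, dimH (s i)) ≤ x := iSup_le h4
  have h6 : x < ⨆ i, dimH (s i) := by exact_mod_cast h3
  exact absurd h6 (not_lt.2 h5)

/-- the product inequality with packing dimension -/
lemma prod_le_pack {X Y : Type*} [EMetricSpace X] [EMetricSpace Y] {A : Set X} {B : Set Y}
    (hA : dimH A ≠ ⊤) (hB : B.Nonempty) :
    ((dimH (A ×ˢ B) : ℝ≥0∞) : EReal) ≤ ((dimH A : ℝ≥0∞) : EReal) + packDim B := by
  by_contra hcon
  push Not at hcon
  obtain ⟨h, hh⟩ : ∃ h : ℝ≥0, (h : ℝ≥0∞) = dimH A := ⟨(dimH A).toNNReal, ENNReal.coe_toNNReal hA⟩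
  rw [← hh] at hcon
  have hcast : (((h : ℝ≥0) : ℝ≥0∞) : EReal) = ((h : ℝ) : EReal) := rfl
  rw [hcast] at hcon
  obtain ⟨D, hD1, hD2⟩ := EReal.lt_iff_exists_real_btwn.1 hcon
  have hub : packDim B < ((D - h : ℝ) : EReal) := by
    by_contra hcon2
    push Not at hcon2
    have h5 : ((h : ℝ) : EReal) + ((D - h : ℝ) : EReal) ≤ ((h : ℝ) : EReal) + packDim B := by
      gcongr
    rw [← EReal.coe_add, add_sub_cancel] at h5
    exact absurd hD1 (not_lt.2 h5)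
  unfold packDim at hub
  rw [iInf_lt_iff] at hub
  obtain ⟨s, hub⟩ := hub
  rw [iInf_lt_iff] at hub
  obtain ⟨hs, hub⟩ := hub
  have hub0 : (0 : ℝ) ≤ D - h := by
    obtain ⟨b, hb⟩ := hB
    obtain ⟨i0, hi0⟩ := mem_iUnion.1 (hs hb)
    have h0 : (0 : EReal) ≤ ⨆ i, upperBoxDim (s i) :=
      (upperBoxDim_nonneg ⟨b, hi0⟩).trans (le_iSup (fun i => upperBoxDim (s i)) i0)
    exact_mod_cast (h0.trans hub.le)
  have h1 : ∀ i, dimH (A ×ˢ s i) ≤ ((Real.toNNReal D : ℝ≥0) : ℝ≥0∞) := by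
    intro i
    rcases (s i).eq_empty_or_nonempty with he | hne
    · rw [he, prod_empty, dimH_empty]
      exact zero_le
    · have h2 := prod_le (A := A) hA hne
      have h3 : upperBoxDim (s i) ≤ ((D - h : ℝ) : EReal) :=
        (le_iSup (fun i => upperBoxDim (s i)) i).trans hub.le
      rw [← hh, hcast] at h2
      have h4 : ((dimH (A ×ˢ s i) : ℝ≥0∞) : EReal) ≤ ((D : ℝ) : EReal) := by
        refine h2.trans ?_
        calc ((h : ℝ) : EReal) + upperBoxDim (s i) ≤ ((h : ℝ) : EReal) + ((D - h : ℝ) : EReal) := by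
              gcongr
          _ = ((D : ℝ) : EReal) := by rw [← EReal.coe_add, add_sub_cancel]
      have hD0 : 0 ≤ D := by
        have : (0 : ℝ) ≤ (h : ℝ) := NNReal.coe_nonneg h
        linarith
      have h5 : ((D : ℝ) : EReal) = (((Real.toNNReal D : ℝ≥0) : ℝ≥0∞) : EReal) := by
        conv_lhs => rw [← Real.coe_toNNReal D hD0]
        rfl
      rw [h5] at h4
      exact_mod_cast h4
  have h2 : dimH (A ×ˢ B) ≤ ((Real.toNNReal D : ℝ≥0) : ℝ≥0∞) := by
    have h3 : A ×ˢ B ⊆ ⋃ i, A ×ˢ s i := by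
      rintro ⟨a, b⟩ ⟨ha, hb⟩
      obtain ⟨i, hi⟩ := mem_iUnion.1 (hs hb)
      exact mem_iUnion.2 ⟨i, ha, hi⟩
    refine (dimH_mono h3).trans ?_
    rw [dimH_iUnion]
    exact iSup_le h1
  have hD0 : 0 ≤ D := by
    have : (0 : ℝ) ≤ (h : ℝ) := NNReal.coe_nonneg h
    linarith
  have h5 : ((D : ℝ) : EReal) = (((Real.toNNReal D : ℝ≥0) : ℝ≥0∞) : EReal) := by
    conv_lhs => rw [← Real.coe_toNNReal D hD0]
    rfl
  rw [h5] at hD2
  have h6 : ((Real.toNNReal D : ℝ≥0) : ℝ≥0∞) < dimH (A ×ˢ B) := by exact_mod_cast hD2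
  exact absurd h6 (not_lt.2 h2)

lemma dimH_prod_comm {X Y : Type*} [EMetricSpace X] [EMetricSpace Y] (A : Set X) (B : Set Y) :
    dimH (A ×ˢ B) ≤ dimH (B ×ˢ A) := by
  have h : A ×ˢ B ⊆ (fun z : Y × X => (z.2, z.1)) '' (B ×ˢ A) := by
    rintro ⟨a, b⟩ ⟨ha, hb⟩
    exact ⟨(b, a), ⟨hb, ha⟩, rfl⟩
  refine (dimH_mono h).trans ?_
  have h2 : LipschitzWith 1 (fun z : Y × X => (z.2, z.1)) := by
    intro z w
    rw [Prod.edist_eq, Prod.edist_eq]
    simp [max_comm]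
  exact h2.dimH_image_le _

end Pool.Agent.H63.CB
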