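import Pool.Agent.H63.CB.Digit

/-!
Lower bounds for the Hausdorff dimension of products by projections of positive outer measure.
-/

set_option autoImplicit false

namespace Pool.Agent.H63.CB

open Filter Topology Set MeasureTheory
open scoped ENNReal NNReal

/-- the index set of the target of the linear map used -/
abbrev Idx (m : ℕ) := Option (Fin m ⊕ Fin m)

/-- coordinates of the linear map -/
noncomputable def Phi (m : ℕ) : (EuclideanSpace ℝ (Fin (m + 1)) × EuclideanSpace ℝ (Fin (m + 1))) →L[ℝ] (Idx m → ℝ) :=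
  ContinuousLinearMap.pi fun i => match i with
    | none => (EuclideanSpace.proj (𝕜 := ℝ) (0 : Fin (m + 1))).comp (ContinuousLinearMap.fst ℝ _ _) -
        (EuclideanSpace.proj (𝕜 := ℝ) (0 : Fin (m + 1))).comp (ContinuousLinearMap.snd ℝ _ _)
    | some (Sum.inl j) => (EuclideanSpace.proj (𝕜 := ℝ) j.succ).comp (ContinuousLinearMap.fst ℝ _ _)
    | some (Sum.inr j) => (EuclideanSpace.proj (𝕜 := ℝ) j.succ).comp (ContinuousLinearMap.snd ℝ _ _)

lemma Phi_none {m : ℕ} (x y : EuclideanSpace ℝ (Fin (m + 1))) : Phi m (x, y) none = x 0 - y 0 := by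
  simp [Phi]

lemma Phi_inl {m : ℕ} (x y : EuclideanSpace ℝ (Fin (m + 1))) (j : Fin m) :
    Phi m (x, y) (some (Sum.inl j)) = x j.succ := by
  simp [Phi]

lemma Phi_inr {m : ℕ} (x y : EuclideanSpace ℝ (Fin (m + 1))) (j : Fin m) :
    Phi m (x, y) (some (Sum.inr j)) = y j.succ := by
  simp [Phi]

/-- points on the two faces orthogonal to the first axis -/
lemma mem_packing {m : ℕ} (f : Ioo (0 : ℝ) 1 → EuclideanSpace ℝ (Fin (m + 1))) (t : Ioo (0 : ℝ) 1)
    (x : EuclideanSpace ℝ (Fin (m + 1))) (h0 : x 0 = f t 0 ∨ x 0 = f t 0 + t)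
    (hj : ∀ j : Fin m, x j.succ ∈ Icc (f t j.succ) (f t j.succ + t)) : x ∈ packing f := by
  have ht0 : (0 : ℝ) < t := t.2.1
  refine mem_iUnion.2 ⟨t, (t : ℝ)⁻¹ • (x - f t), ⟨?_, 0, ?_⟩, ?_⟩
  · intro i
    have hx : x i ∈ Icc (f t i) (f t i + t) := by
      refine Fin.cases ?_ hj i
      rcases h0 with h0 | h0 <;> rw [h0] <;> constructor <;> linarith
    simp only [PiLp.smul_apply, PiLp.sub_apply, smul_eq_mul]
    constructor
    · apply mul_nonneg (inv_nonneg.2 ht0.le)
      linarith [hx.1]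
    · rw [inv_mul_le_iff₀ ht0]
      linarith [hx.2]
  · simp only [PiLp.smul_apply, PiLp.sub_apply, smul_eq_mul]
    rcases h0 with h0 | h0
    · left; rw [h0]; simp
    · right; rw [h0]; field_simp; ring
  · simp only
    rw [smul_inv_smul₀ ht0.ne']
    simp

/-- the lower bound for the product of a packing with itself -/
lemma lower_self {m : ℕ} (f : Ioo (0 : ℝ) 1 → EuclideanSpace ℝ (Fin (m + 1))) :
    ((2 * m + 1 : ℕ) : ℝ≥0∞) ≤ dimH (packing f ×ˢ packing f) := by
  -- the classes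
  set Tq : (Fin m → ℤ) → Set ℝ := fun q => {t | ∃ h : t ∈ Ioo (0 : ℝ) 1, 1 / 2 < t ∧
    ∀ j : Fin m, ⌈4 * f ⟨t, h⟩ j.succ⌉ = q j} with hTq
  have hcov : Ioo (1 / 2 : ℝ) 1 ⊆ ⋃ q, Tq q := by
    intro t ht
    have h : t ∈ Ioo (0 : ℝ) 1 := ⟨by linarith [ht.1], ht.2⟩
    exact mem_iUnion.2 ⟨fun j => ⌈4 * f ⟨t, h⟩ j.succ⌉, h, ht.1, fun j => rfl⟩
  obtain ⟨q, hq⟩ : ∃ q, volume (Tq q) ≠ 0 := by
    by_contra hcon
    push Not at hcon
    have h1 : volume (⋃ q, Tq q) = 0 := measure_iUnion_null hcon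
    have h2 := measure_mono_null hcov h1
    rw [Real.volume_Ioo] at h2
    norm_num at h2
  -- the product set
  set S : Idx m → Set ℝ := fun i => match i with
    | none => Tq q
    | some (Sum.inl j) => Icc ((q j : ℝ) / 4) (((q j : ℝ) + 1) / 4)
    | some (Sum.inr j) => Icc ((q j : ℝ) / 4) (((q j : ℝ) + 1) / 4) with hS
  have hvol : volume (Set.pi univ S) ≠ 0 := by
    rw [volume_pi_pi]
    rw [Finset.prod_ne_zero_iff]
    rintro (_ | (j | j)) _
    · exact hq
    · simp only [hS]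
      rw [Real.volume_Icc]
      simp only [ne_eq, ENNReal.ofReal_eq_zero, not_le]
      linarith
    · simp only [hS]
      rw [Real.volume_Icc]
      simp only [ne_eq, ENNReal.ofReal_eq_zero, not_le]
      linarith
  have hsub : Set.pi univ S ⊆ Phi m '' (packing f ×ˢ packing f) := by
    intro z hz
    obtain ⟨ht, ht2, hqj⟩ := hz none (mem_univ _)
    set t : Ioo (0 : ℝ) 1 := ⟨z none, ht⟩ with htdef
    have hint : ∀ j : Fin m, ∀ a ∈ Icc ((q j : ℝ) / 4) (((q j : ℝ) + 1) / 4),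
        a ∈ Icc (f t j.succ) (f t j.succ + t) := by
      intro j a ha
      have h1 : (q j : ℝ) < 4 * f t j.succ + 1 := by
        rw [← hqj j]; exact Int.ceil_lt_add_one _
      have h2 : 4 * f t j.succ ≤ (q j : ℝ) := by
        rw [← hqj j]; exact Int.le_ceil _
      have h3 : (1 / 2 : ℝ) < (t : ℝ) := ht2
      constructor
      · linarith [ha.1]
      · linarith [ha.2]
    let x : EuclideanSpace ℝ (Fin (m + 1)) :=
      WithLp.toLp 2 (Fin.cons (f t 0 + t) (fun j => z (some (Sum.inl j))))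
    let y : EuclideanSpace ℝ (Fin (m + 1)) :=
      WithLp.toLp 2 (Fin.cons (f t 0) (fun j => z (some (Sum.inr j))))
    have hx0 : x 0 = f t 0 + t := by simp [x]
    have hy0 : y 0 = f t 0 := by simp [y]
    have hxj : ∀ j : Fin m, x j.succ = z (some (Sum.inl j)) := fun j => by simp [x]
    have hyj : ∀ j : Fin m, y j.succ = z (some (Sum.inr j)) := fun j => by simp [y]
    refine ⟨(x, y), ⟨?_, ?_⟩, ?_⟩
    · apply mem_packing f t x (Or.inr hx0)
      intro j
      rw [hxj]
      exact hint j _ (hz (some (Sum.inl j)) (mem_univ _))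
    · apply mem_packing f t y (Or.inl hy0)
      intro j
      rw [hyj]
      exact hint j _ (hz (some (Sum.inr j)) (mem_univ _))
    · ext i
      rcases i with _ | (j | j)
      · rw [Phi_none, hx0, hy0]; simp [htdef]
      · rw [Phi_inl, hxj]
      · rw [Phi_inr, hyj]
  have h1 : ((2 * m + 1 : ℕ) : ℝ≥0∞) ≤ dimH (Set.pi univ S) := by
    have hcard : Fintype.card (Idx m) = 2 * m + 1 := by
      simp [Idx, Fintype.card_option, Fintype.card_sum]; ring
    have h2 : (μH[((2 * m + 1 : ℕ) : ℝ≥0)] : Measure (Idx m → ℝ)) = volume := by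
      have := hausdorffMeasure_pi_real (ι := Idx m)
      rw [hcard] at this
      simpa using this
    have h3 := le_dimH_of_hausdorffMeasure_ne_zero (X := Idx m → ℝ) (d := ((2 * m + 1 : ℕ) : ℝ≥0))
      (s := Set.pi univ S) (by rw [h2]; exact hvol)
    simpa using h3
  calc ((2 * m + 1 : ℕ) : ℝ≥0∞) ≤ dimH (Set.pi univ S) := h1
    _ ≤ dimH (Phi m '' (packing f ×ˢ packing f)) := dimH_mono hsub
    _ ≤ dimH (packing f ×ˢ packing f) := (Phi m).lipschitz.dimH_image_le _

/-- coordinates of the second linear map -/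
noncomputable def Psi (m : ℕ) : (EuclideanSpace ℝ (Fin (m + 1)) × ℝ) →L[ℝ] (Option (Fin m) → ℝ) :=
  ContinuousLinearMap.pi fun i => match i with
    | none => (EuclideanSpace.proj (𝕜 := ℝ) (0 : Fin (m + 1))).comp (ContinuousLinearMap.fst ℝ _ _) +
        ContinuousLinearMap.snd ℝ _ _
    | some j => (EuclideanSpace.proj (𝕜 := ℝ) j.succ).comp (ContinuousLinearMap.fst ℝ _ _)

lemma Psi_none {m : ℕ} (x : EuclideanSpace ℝ (Fin (m + 1))) (y : ℝ) : Psi m (x, y) none = x 0 + y := by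
  simp [Psi]

lemma Psi_some {m : ℕ} (x : EuclideanSpace ℝ (Fin (m + 1))) (y : ℝ) (j : Fin m) :
    Psi m (x, y) (some j) = x j.succ := by
  simp [Psi]

/-- the lower bound for the product of a set with a set of reals -/
lemma lower {m : ℕ} (G : Set (EuclideanSpace ℝ (Fin (m + 1)))) (B T0 : Set ℝ) (hT : volume T0 ≠ 0)
    (u : ℝ → Fin m → ℝ) (hG : ∀ t ∈ T0, ∃ b ∈ B, ∀ x : EuclideanSpace ℝ (Fin (m + 1)), x 0 + b = t →
      (∀ j : Fin m, x j.succ ∈ Icc (u t j) (u t j + 1 / 4)) → x ∈ G) :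
    ((m + 1 : ℕ) : ℝ≥0∞) ≤ dimH (G ×ˢ B) := by
  set Tq : (Fin m → ℤ) → Set ℝ := fun q => {t | t ∈ T0 ∧ ∀ j : Fin m, ⌈8 * u t j⌉ = q j} with hTq
  have hcov : T0 ⊆ ⋃ q, Tq q := by
    intro t ht
    exact mem_iUnion.2 ⟨fun j => ⌈8 * u t j⌉, ht, fun j => rfl⟩
  obtain ⟨q, hq⟩ : ∃ q, volume (Tq q) ≠ 0 := by
    by_contra hcon
    push Not at hcon
    have h1 : volume (⋃ q, Tq q) = 0 := measure_iUnion_null hcon
    exact hT (measure_mono_null hcov h1)
  set S : Option (Fin m) → Set ℝ := fun i => match i with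
    | none => Tq q
    | some j => Icc ((q j : ℝ) / 8) (((q j : ℝ) + 1) / 8) with hS
  have hvol : volume (Set.pi univ S) ≠ 0 := by
    rw [volume_pi_pi]
    rw [Finset.prod_ne_zero_iff]
    rintro (_ | j) _
    · exact hq
    · simp only [hS]
      rw [Real.volume_Icc]
      simp only [ne_eq, ENNReal.ofReal_eq_zero, not_le]
      linarith
  have hsub : Set.pi univ S ⊆ Psi m '' (G ×ˢ B) := by
    intro z hz
    obtain ⟨ht, hqj⟩ := hz none (mem_univ _)
    obtain ⟨b, hb, hbx⟩ := hG _ ht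
    let x : EuclideanSpace ℝ (Fin (m + 1)) :=
      WithLp.toLp 2 (Fin.cons (z none - b) (fun j => z (some j)))
    have hx0 : x 0 = z none - b := by simp [x]
    have hxj : ∀ j : Fin m, x j.succ = z (some j) := fun j => by simp [x]
    refine ⟨(x, b), ⟨?_, hb⟩, ?_⟩
    · apply hbx x (by rw [hx0]; ring)
      intro j
      rw [hxj]
      have h1 : (q j : ℝ) < 8 * u (z none) j + 1 := by
        rw [← hqj j]; exact Int.ceil_lt_add_one _
      have h2 : 8 * u (z none) j ≤ (q j : ℝ) := by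
        rw [← hqj j]; exact Int.le_ceil _
      have h3 := hz (some j) (mem_univ _)
      simp only [hS] at h3
      constructor
      · linarith [h3.1]
      · linarith [h3.2]
    · ext i
      rcases i with _ | j
      · rw [Psi_none, hx0]; ring
      · rw [Psi_some, hxj]
  have h1 : ((m + 1 : ℕ) : ℝ≥0∞) ≤ dimH (Set.pi univ S) := by
    have hcard : Fintype.card (Option (Fin m)) = m + 1 := by simp
    have h2 : (μH[((m + 1 : ℕ) : ℝ≥0)] : Measure (Option (Fin m) → ℝ)) = volume := by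
      have := hausdorffMeasure_pi_real (ι := Option (Fin m))
      rw [hcard] at this
      simpa using this
    have h3 := le_dimH_of_hausdorffMeasure_ne_zero (X := Option (Fin m) → ℝ) (d := ((m + 1 : ℕ) : ℝ≥0))
      (s := Set.pi univ S) (by rw [h2]; exact hvol)
    simpa using h3
  calc ((m + 1 : ℕ) : ℝ≥0∞) ≤ dimH (Set.pi univ S) := h1
    _ ≤ dimH (Psi m '' (G ×ˢ B)) := dimH_mono hsub
    _ ≤ dimH (G ×ˢ B) := (Psi m).lipschitz.dimH_image_le _

end Pool.Agent.H63.CB
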