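import Pool.Agent.H63.CB.Slabs

/-!
The main theorem: the inequality, and packings with all dimensions allowed by it.
-/

set_option autoImplicit false

namespace Pool.Agent.H63.CB

open Filter Topology Set MeasureTheory
open scoped ENNReal NNReal

lemma le_of_add_le {x : EReal} {a c : ℝ} (h : ((a + c : ℝ) : EReal) ≤ x + (c : EReal)) :
    (a : EReal) ≤ x := by
  induction x with
  | bot =>
    rw [EReal.bot_add] at h
    exact absurd h (by simp)
  | coe x =>
    have h1 : a + c ≤ x + c := by exact_mod_cast h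
    have h2 : a ≤ x := by linarith
    exact_mod_cast h2
  | top => exact le_top

lemma dimH_le_ofReal {X : Type*} [EMetricSpace X] {A : Set X} {r : ℝ}
    (h : ((dimH A : ℝ≥0∞) : EReal) ≤ (r : EReal)) : dimH A ≤ ENNReal.ofReal r := by
  have h1 : ((dimH A : ℝ≥0∞) : EReal) ≤ ((ENNReal.ofReal r : ℝ≥0∞) : EReal) := by
    refine h.trans ?_
    rw [EReal.coe_ennreal_ofReal]
    exact_mod_cast le_max_left r 0
  exact_mod_cast h1

lemma ofReal_le_ereal {X : Type*} [EMetricSpace X] {A : Set X} {r : ℝ} (hr : 0 ≤ r)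
    (h : dimH A ≤ ENNReal.ofReal r) : ((dimH A : ℝ≥0∞) : EReal) ≤ (r : EReal) := by
  have h1 : ((dimH A : ℝ≥0∞) : EReal) ≤ ((ENNReal.ofReal r : ℝ≥0∞) : EReal) := by exact_mod_cast h
  rw [EReal.coe_ennreal_ofReal, max_eq_left hr] at h1
  exact h1

lemma packing_coord {m : ℕ} {f : Ioo (0 : ℝ) 1 → EuclideanSpace ℝ (Fin (m + 1))}
    (hf : ∀ t i, f t i ∈ Icc (0 : ℝ) 1) {x : EuclideanSpace ℝ (Fin (m + 1))} (hx : x ∈ packing f) :
    (∀ j, x j ∈ Icc (0 : ℝ) 2) ∧ ∃ t : Ioo (0 : ℝ) 1, ∃ i, x i = f t i ∨ x i = f t i + t := by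
  obtain ⟨t, y, ⟨hy1, i, hy2⟩, rfl⟩ := mem_iUnion.1 hx
  have ht := t.2
  constructor
  · intro j
    have h1 := hy1 j
    have h2 := hf t j
    simp only [PiLp.add_apply, PiLp.smul_apply, smul_eq_mul]
    constructor
    · have : 0 ≤ (t : ℝ) * y j := mul_nonneg ht.1.le h1.1
      linarith [h2.1]
    · have : (t : ℝ) * y j ≤ 1 := by
        calc (t : ℝ) * y j ≤ 1 * 1 := by
              apply mul_le_mul ht.2.le h1.2 h1.1 (by norm_num)
          _ = 1 := by norm_num
      linarith [h2.2]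
  · refine ⟨t, i, ?_⟩
    simp only [PiLp.add_apply, PiLp.smul_apply, smul_eq_mul]
    rcases hy2 with h | h
    · left; rw [h]; ring
    · right; rw [h]; ring

lemma packing_nonempty {m : ℕ} (f : Ioo (0 : ℝ) 1 → EuclideanSpace ℝ (Fin (m + 1))) :
    (packing f).Nonempty := by
  have ht : (1 / 2 : ℝ) ∈ Ioo (0 : ℝ) 1 := by constructor <;> norm_num
  refine ⟨f ⟨1 / 2, ht⟩, ?_⟩
  apply mem_packing f ⟨1 / 2, ht⟩ _ (Or.inl rfl)
  intro j
  constructor
  · exact le_rfl
  · simp

/-- the facts valid for all packings -/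
theorem general {m : ℕ} (f : Ioo (0 : ℝ) 1 → EuclideanSpace ℝ (Fin (m + 1)))
    (hf : ∀ t i, f t i ∈ Icc (0 : ℝ) 1) :
    ((m : ℝ) : EReal) ≤ ((dimH (packing f) : ℝ≥0∞) : EReal) ∧
    ((dimH (packing f) : ℝ≥0∞) : EReal) ≤ packDim (packing f) ∧
    packDim (packing f) ≤ upperBoxDim (packing f) ∧
    upperBoxDim (packing f) ≤ (((m : ℝ) + 1 : ℝ) : EReal) ∧
    ((2 * (m : ℝ) + 1 : ℝ) : EReal) ≤ ((dimH (packing f) : ℝ≥0∞) : EReal) + packDim (packing f) := by
  have hne := packing_nonempty f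
  have hup : upperBoxDim (packing f) ≤ (((m : ℝ) + 1 : ℝ) : EReal) := by
    have h1 : packing f ⊆ slabs m (Icc 0 2) := by
      intro x hx
      have h2 := (packing_coord hf hx).1
      exact ⟨⟨0, h2 0⟩, h2⟩
    refine (upperBoxDim_mono h1).trans ?_
    exact upperBoxDim_le_of_covAll (by positivity) (by positivity) Icc_covAll.slabs
  have hsum : ((2 * (m : ℝ) + 1 : ℝ) : EReal) ≤ ((dimH (packing f) : ℝ≥0∞) : EReal) + packDim (packing f) := by
    refine le_trans ?_ (prod_le_pack (A := packing f) (B := packing f) (Real.dimH_ne_top _) hne)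
    have h1 := lower_self f
    have h2 : (((2 * m + 1 : ℕ) : ℝ≥0∞) : EReal) ≤ ((dimH (packing f ×ˢ packing f) : ℝ≥0∞) : EReal) := by
      exact_mod_cast h1
    refine le_trans (le_of_eq ?_) h2
    push_cast
    rfl
  refine ⟨?_, dimH_le_packDim hne, packDim_le_upperBoxDim _, hup, hsum⟩
  apply le_of_add_le (c := (m : ℝ) + 1)
  have h1 : (m : ℝ) + ((m : ℝ) + 1) = 2 * (m : ℝ) + 1 := by ring
  rw [h1]
  refine hsum.trans ?_
  gcongr
  exact (packDim_le_upperBoxDim _).trans hup

lemma cnt_insert_le (S : Set ℕ) (N : ℕ) : cnt (insert 0 S) N ≤ cnt S N + 1 := by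
  classical
  unfold cnt
  refine le_trans (Finset.card_le_card (t := insert 0 ((Finset.range N).filter (fun k => k ∈ S))) ?_)
    (Finset.card_insert_le _ _)
  intro k hk
  have hk' : k ∈ Finset.range N ∧ k ∈ insert 0 S := by simpa only [Finset.mem_filter] using hk
  rw [Finset.mem_insert, Finset.mem_filter]
  rcases hk'.2 with h | h
  · exact Or.inl h
  · exact Or.inr ⟨hk'.1, h⟩

lemma cnt_mono {S S' : Set ℕ} (h : S ⊆ S') (N : ℕ) : cnt S N ≤ cnt S' N := by
  classical
  unfold cnt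
  apply Finset.card_le_card
  intro k hk
  rw [Finset.mem_filter] at hk ⊢
  exact ⟨hk.1, h hk.2⟩

lemma dig_le_half {S : Set ℕ} (h0 : 0 ∉ S) {x : ℝ} (hx : x ∈ dig S) : x ≤ 1 / 2 := by
  obtain ⟨d, hd, rfl⟩ := hx
  rw [Real.ofDigits_eq_sum_add_ofDigits d 1]
  have h1 := Real.ofDigits_le_one (fun i => d (i + 1))
  have h2 : d 0 = 0 := hd 0 h0
  simp only [Finset.range_one, Finset.sum_singleton, Real.ofDigitsTerm, h2]
  norm_num
  linarith

/-- construction of packings with prescribed dimensions -/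
theorem construct (m : ℕ) {h p b : ℝ} (hh : 0 ≤ h) (hp : h ≤ p) (hb : p ≤ b) (hb1 : b ≤ 1)
    (hsum : 1 ≤ h + p) :
    ∃ f : Ioo (0 : ℝ) 1 → EuclideanSpace ℝ (Fin (m + 1)), (∀ t i, f t i ∈ Icc (0 : ℝ) 1) ∧
      ((dimH (packing f) : ℝ≥0∞) : EReal) = (((m : ℝ) + h : ℝ) : EReal) ∧
      packDim (packing f) = (((m : ℝ) + p : ℝ) : EReal) ∧
      upperBoxDim (packing f) = (((m : ℝ) + b : ℝ) : EReal) := by
  classical
  have hp0 : 0 ≤ p := hh.trans hp
  have hb0 : 0 ≤ b := hp0.trans hb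
  obtain ⟨S, hS⟩ := exists_dens (α := 1 - p) (β := 1 - h) (by linarith) (by linarith) (by linarith)
  obtain ⟨R, hR⟩ := exists_dens (α := b) (β := b) hb0 le_rfl hb1
  have cS : CovAll (dig S) 1 (1 - h) := dig_covAll fun ε hε => (hS ε hε).1
  have cSc : CovAll (dig Sᶜ) 1 p := dig_covAll fun ε hε => by
    have := (hS ε hε).2.1
    rwa [sub_sub_cancel] at this
  have iS : CovInf (dig S) 1 (1 - p) := dig_covInf fun ε hε => (hS ε hε).2.2.1
  have iSc : CovInf (dig Sᶜ) 1 h := dig_covInf fun ε hε => by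
    have := (hS ε hε).2.2.2
    rwa [sub_sub_cancel] at this
  set S2 : Set ℕ := insert 0 R with hS2
  have cS2 : CovAll (dig S2) 1 b := by
    apply dig_covAll
    intro ε hε
    filter_upwards [(hR (ε / 2) (half_pos hε)).1, eventually_ge_atTop ⌈2 / ε⌉₊] with N hN hN2
    have h1 : (cnt S2 N : ℝ) ≤ cnt R N + 1 := by exact_mod_cast cnt_insert_le R N
    have h2 : 2 / ε ≤ N := (Nat.le_ceil _).trans (by exact_mod_cast hN2)
    rw [div_le_iff₀ hε] at h2
    nlinarith
  have cS2c : CovAll (dig S2ᶜ) 1 (1 - b) := by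
    apply dig_covAll
    intro ε hε
    filter_upwards [(hR ε hε).2.1] with N hN
    have h1 : (cnt S2ᶜ N : ℝ) ≤ cnt Rᶜ N := by
      exact_mod_cast cnt_mono (compl_subset_compl.2 (subset_insert 0 R)) N
    exact h1.trans hN
  -- the dense countable set
  obtain ⟨D, hDC, hDc, hDd⟩ := (TopologicalSpace.IsSeparable.of_separableSpace
    (dig S2 ∩ Ioo (1 / 4 : ℝ) 1)).exists_countable_dense_subset
  -- the decomposition
  have hdec : ∀ t : ℝ, ∃ y : ℝ, t ∈ Icc (0 : ℝ) 1 → y ∈ dig S ∧ t - y ∈ dig Sᶜ := by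
    intro t
    by_cases ht : t ∈ Icc (0 : ℝ) 1
    · obtain ⟨a, ha, y, hy, hay⟩ := dig_add S ht
      refine ⟨y, fun _ => ⟨hy, ?_⟩⟩
      have : t - y = a := by linarith
      rwa [this]
    · exact ⟨0, fun h => absurd h ht⟩
  choose y hy using hdec
  have hIcc : ∀ t : Ioo (0 : ℝ) 1, (t : ℝ) ∈ Icc (0 : ℝ) 1 := fun t => ⟨t.2.1.le, t.2.2.le⟩
  set f : Ioo (0 : ℝ) 1 → EuclideanSpace ℝ (Fin (m + 1)) := fun t =>
    if (t : ℝ) ∈ D then 0 else WithLp.toLp 2 (fun _ => 1 - y t) with hfdef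
  have hfD : ∀ t : Ioo (0 : ℝ) 1, (t : ℝ) ∈ D → ∀ i, f t i = 0 := by
    intro t ht i
    simp [hfdef, ht]
  have hfN : ∀ t : Ioo (0 : ℝ) 1, (t : ℝ) ∉ D → ∀ i, f t i = 1 - y t := by
    intro t ht i
    simp [hfdef, ht]
  have hf : ∀ t i, f t i ∈ Icc (0 : ℝ) 1 := by
    intro t i
    by_cases ht : (t : ℝ) ∈ D
    · rw [hfD t ht]; simp
    · rw [hfN t ht]
      have h1 := dig_subset S (hy t (hIcc t)).1
      constructor
      · linarith [h1.2]
      · linarith [h1.1]
  -- the set lies in slabs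
  set EA : Set ℝ := (fun x => 1 + x) '' dig Sᶜ with hEA
  set EB : Set ℝ := (fun x => 1 - x) '' dig S with hEB
  have hcases : ∀ x ∈ packing f, x ∈ slabs m EA ∪ slabs m EB ∨ ∃ d ∈ D, x ∈ slabs m {0, d} := by
    intro x hx
    obtain ⟨hx2, t, i, hti⟩ := packing_coord hf hx
    by_cases ht : (t : ℝ) ∈ D
    · right
      refine ⟨t, ht, ⟨i, ?_⟩, hx2⟩
      rw [hfD t ht, zero_add] at hti
      exact hti
    · left
      rw [hfN t ht] at hti
      have h1 := hy t (hIcc t)
      rcases hti with h2 | h2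
      · exact Or.inr ⟨⟨i, y t, h1.1, h2.symm⟩, hx2⟩
      · refine Or.inl ⟨⟨i, t - y t, h1.2, ?_⟩, hx2⟩
        rw [h2]; ring
  have hdA : ∀ x z : ℝ, dist (1 + x) (1 + z) ≤ dist x z := fun x z => by simp [Real.dist_eq]
  have hdB : ∀ x z : ℝ, dist (1 - x) (1 - z) ≤ dist x z := fun x z => by
    rw [Real.dist_eq, Real.dist_eq]
    have : 1 - x - (1 - z) = -(x - z) := by ring
    rw [this, abs_neg]
  have hm0 : (0 : ℝ) ≤ m := Nat.cast_nonneg m
  -- upper bounds
  have hup_b : upperBoxDim (packing f) ≤ (((m : ℝ) + b : ℝ) : EReal) := by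
    have h1 : packing f ⊆ slabs m ((EA ∪ EB) ∪ dig S2) := by
      intro x hx
      rcases hcases x hx with (h1 | h1) | ⟨d, hd, h1⟩
      · exact slabs_mono (by intro z hz; exact Or.inl (Or.inl hz)) h1
      · exact slabs_mono (by intro z hz; exact Or.inl (Or.inr hz)) h1
      · refine slabs_mono ?_ h1
        rintro z (rfl | rfl)
        · exact Or.inr (zero_mem_dig S2)
        · exact Or.inr (hDC hd).1
    refine (upperBoxDim_mono h1).trans ?_
    apply upperBoxDim_le_of_covAll (by linarith) (C := (m : ℝ) + 1) (by linarith)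
    apply CovAll.slabs
    exact (((cSc.image _ hdA).mono hb).union ((cS.image _ hdB).mono (by linarith))).union cS2
  have hup_p : packDim (packing f) ≤ (((m : ℝ) + p : ℝ) : EReal) := by
    obtain ⟨g, hg⟩ := Set.countable_iff_exists_subset_range.1 hDc
    have h1 : packing f ⊆ slabs m (EA ∪ EB) ∪ ⋃ d ∈ D, slabs m {0, d} := by
      intro x hx
      rcases hcases x hx with (h1 | h1) | ⟨d, hd, h1⟩
      · exact Or.inl (slabs_mono (by intro z hz; exact Or.inl hz) h1)
      · exact Or.inl (slabs_mono (by intro z hz; exact Or.inr hz) h1)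
      · exact Or.inr (mem_biUnion hd h1)
    refine (packDim_mono h1).trans ?_
    apply packDim_union_countable (fun i => slabs m {0, g i})
    · intro x hx
      obtain ⟨d, hd, hxd⟩ := mem_iUnion₂.1 hx
      obtain ⟨i, rfl⟩ := hg hd
      exact mem_iUnion.2 ⟨i, hxd⟩
    · apply upperBoxDim_le_of_covAll (by linarith) (C := (m : ℝ) + 1) (by linarith)
      apply CovAll.slabs
      exact (cSc.image _ hdA).union ((cS.image _ hdB).mono (by linarith))
    · intro i
      apply upperBoxDim_le_of_covAll (by linarith) (C := (m : ℝ) + 1) (by linarith)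
      apply CovAll.slabs
      exact (pair_covAll 0 (g i)).mono hp0
  have hup_h : ((dimH (packing f) : ℝ≥0∞) : EReal) ≤ (((m : ℝ) + h : ℝ) : EReal) := by
    apply ofReal_le_ereal (by linarith)
    have h1 : packing f ⊆ (slabs m EA ∪ slabs m EB) ∪ ⋃ d ∈ D, slabs m {0, d} := by
      intro x hx
      rcases hcases x hx with h1 | ⟨d, hd, h1⟩
      · exact Or.inl h1
      · exact Or.inr (mem_biUnion hd h1)
    refine (dimH_mono h1).trans ?_
    rw [dimH_union, dimH_union, dimH_bUnion hDc]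
    refine max_le (max_le ?_ ?_) ?_
    · apply dimH_le_ofReal
      exact dimH_le_of_covInf (by linarith) (C := (m : ℝ) + 1) (by linarith) (iSc.image _ hdA).slabs
    · apply dimH_le_ofReal
      exact dimH_le_of_covInf (by linarith) (C := (m : ℝ) + 1) (by linarith)
        ((iS.image _ hdB).mono (by linarith)).slabs
    · refine iSup₂_le fun d _ => ?_
      apply dimH_le_ofReal
      exact dimH_le_of_covInf (by linarith) (C := (m : ℝ) + 1) (by linarith)
        (((pair_covAll 0 d).mono hh).inf).slabs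
  -- lower bounds
  have hlow : ((m + 1 : ℕ) : ℝ≥0∞) ≤ dimH (packing f ×ˢ dig S) := by
    refine lower (packing f) (dig S) (Ioo (3 / 2 : ℝ) 2 \ (fun x => 1 + x) '' D) ?_
      (fun t _ => 1 - y (t - 1)) ?_
    · rw [measure_sdiff_null ((hDc.image _).measure_zero volume), Real.volume_Ioo]
      norm_num
    · rintro t ⟨ht, htD⟩
      have ht1 : t - 1 ∈ Ioo (0 : ℝ) 1 := ⟨by linarith [ht.1], by linarith [ht.2]⟩
      have htD' : t - 1 ∉ D := fun hc => htD ⟨t - 1, hc, by simp⟩
      have h1 := hy (t - 1) ⟨ht1.1.le, ht1.2.le⟩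
      refine ⟨y (t - 1), h1.1, fun x hx0 hxj => ?_⟩
      apply mem_packing f ⟨t - 1, ht1⟩ x
      · right
        rw [hfN _ htD']
        simp only
        linarith
      · intro j
        rw [hfN _ htD']
        have h2 := hxj j
        simp only at h2 ⊢
        constructor
        · exact h2.1
        · linarith [h2.2, ht.1]
  have hlowE : (((m : ℝ) + 1 : ℝ) : EReal) ≤ ((dimH (packing f ×ˢ dig S) : ℝ≥0∞) : EReal) := by
    have h2 : (((m + 1 : ℕ) : ℝ≥0∞) : EReal) ≤ ((dimH (packing f ×ˢ dig S) : ℝ≥0∞) : EReal) := by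
      exact_mod_cast hlow
    refine le_trans (le_of_eq ?_) h2
    push_cast
    rfl
  have hlow_h : (((m : ℝ) + h : ℝ) : EReal) ≤ ((dimH (packing f) : ℝ≥0∞) : EReal) := by
    apply le_of_add_le (c := 1 - h)
    have h1 : (m : ℝ) + h + (1 - h) = (m : ℝ) + 1 := by ring
    rw [h1]
    refine hlowE.trans ((prod_le (Real.dimH_ne_top _) ⟨0, zero_mem_dig S⟩).trans ?_)
    gcongr
    exact upperBoxDim_le_of_covAll (by linarith) one_pos cS
  have hlow_p : (((m : ℝ) + p : ℝ) : EReal) ≤ packDim (packing f) := by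
    apply le_of_add_le (c := 1 - p)
    have h1 : (m : ℝ) + p + (1 - p) = (m : ℝ) + 1 := by ring
    rw [h1]
    have h2 : ((dimH (packing f ×ˢ dig S) : ℝ≥0∞) : EReal) ≤ ((dimH (dig S ×ˢ packing f) : ℝ≥0∞) : EReal) := by
      exact_mod_cast dimH_prod_comm (packing f) (dig S)
    refine hlowE.trans (h2.trans ((prod_le_pack (Real.dimH_ne_top _) (packing_nonempty f)).trans ?_))
    rw [add_comm]
    gcongr
    exact dimH_le_of_covInf (by linarith) one_pos iS
  have hlow2 : ((m + 1 : ℕ) : ℝ≥0∞) ≤ dimH (closure (packing f) ×ˢ dig S2ᶜ) := by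
    refine lower (closure (packing f)) (dig S2ᶜ) (Ioo (3 / 4 : ℝ) 1) ?_ (fun _ _ => 0) ?_
    · rw [Real.volume_Ioo]
      norm_num
    · intro t ht
      obtain ⟨a, ha, z, hz, haz⟩ := dig_add S2 (t := t) ⟨by linarith [ht.1], ht.2.le⟩
      have ha1 : a ≤ 1 / 2 := dig_le_half (by simp [hS2]) ha
      have ha0 : 0 ≤ a := (dig_subset _ ha).1
      refine ⟨a, ha, fun x hx0 hxj => ?_⟩
      have hx0' : x 0 = z := by linarith
      have hzC : z ∈ dig S2 ∩ Ioo (1 / 4 : ℝ) 1 := ⟨hz, by linarith [ht.1], by linarith [ht.2]⟩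
      have hzcl : z ∈ closure D := hDd hzC
      set φ : ℝ → EuclideanSpace ℝ (Fin (m + 1)) := fun s =>
        WithLp.toLp 2 (Fin.cons s (fun j : Fin m => x j.succ)) with hφ
      have hφc : Continuous φ := by
        rw [hφ]
        refine (PiLp.continuous_toLp 2 _).comp ?_
        refine continuous_pi fun i => ?_
        refine Fin.cases ?_ (fun j => ?_) i
        · simpa using continuous_id'
        · simpa using continuous_const
      have hxφ : x = φ z := by
        ext i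
        refine Fin.cases ?_ (fun j => ?_) i
        · simp [hφ, hx0']
        · simp [hφ]
      rw [hxφ]
      have h1 : φ '' D ⊆ packing f := by
        rintro _ ⟨d, hd, rfl⟩
        have hd2 := (hDC hd).2
        have hdI : d ∈ Ioo (0 : ℝ) 1 := ⟨by linarith [hd2.1], hd2.2⟩
        apply mem_packing f ⟨d, hdI⟩
        · right
          rw [hfD ⟨d, hdI⟩ hd]
          simp [hφ]
        · intro j
          rw [hfD ⟨d, hdI⟩ hd]
          have h2 := hxj j
          simp only [zero_add] at h2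
          have h3 : φ d j.succ = x j.succ := by simp [hφ]
          rw [h3]
          constructor
          · exact h2.1
          · simp only [zero_add]
            linarith [h2.2, hd2.1]
      exact closure_mono h1 (image_closure_subset_closure_image hφc ⟨z, hzcl, rfl⟩)
  have hlow_b : (((m : ℝ) + b : ℝ) : EReal) ≤ upperBoxDim (packing f) := by
    apply le_of_add_le (c := 1 - b)
    have h1 : (m : ℝ) + b + (1 - b) = (m : ℝ) + 1 := by ring
    rw [h1]
    have h2 : (((m : ℝ) + 1 : ℝ) : EReal) ≤ ((dimH (dig S2ᶜ ×ˢ closure (packing f)) : ℝ≥0∞) : EReal) := by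
      have h3 : (((m + 1 : ℕ) : ℝ≥0∞) : EReal) ≤ ((dimH (dig S2ᶜ ×ˢ closure (packing f)) : ℝ≥0∞) : EReal) := by
        exact_mod_cast hlow2.trans (dimH_prod_comm _ _)
      refine le_trans (le_of_eq ?_) h3
      push_cast
      rfl
    refine h2.trans ((prod_le (Real.dimH_ne_top _) (packing_nonempty f).closure).trans ?_)
    rw [upperBoxDim_closure, add_comm]
    gcongr
    exact dimH_le_of_covInf (by linarith) one_pos cS2c.inf
  exact ⟨f, hf, le_antisymm hup_h hlow_h, le_antisymm hup_p hlow_p, le_antisymm hup_b hlow_b⟩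

end Pool.Agent.H63.CB
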