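import Pool.Agent.H63.CB.Lower

/-!
Covers of unions of slabs.
-/

set_option autoImplicit false

namespace Pool.Agent.H63.CB

open Filter Topology Set
open scoped ENNReal NNReal

lemma two_rpow_le {x y : ℝ} (h : x ≤ y) : (2 : ℝ) ^ x ≤ (2 : ℝ) ^ y :=
  Real.rpow_le_rpow_of_exponent_le (by norm_num) h

/-- a constant is absorbed by an exponential -/
lemma const_absorb (K : ℝ) {ε : ℝ} (hε : 0 < ε) : ∀ᶠ N : ℕ in atTop, K ≤ (2 : ℝ) ^ (ε * N) := by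
  have h1 : Tendsto (fun N : ℕ => ((2 : ℝ) ^ ε) ^ N) atTop atTop :=
    tendsto_pow_atTop_atTop_of_one_lt (Real.one_lt_rpow (by norm_num) hε)
  filter_upwards [h1.eventually_ge_atTop K] with N hN
  rwa [Real.rpow_mul (by norm_num), Real.rpow_natCast]

lemma CovAll.mono {X : Type*} [PseudoMetricSpace X] {A : Set X} {C s s' : ℝ} (h : CovAll A C s)
    (hs : s ≤ s') : CovAll A C s' := by
  intro ε hε
  filter_upwards [h ε hε] with N hN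
  obtain ⟨M, hM, hc⟩ := hN
  refine ⟨M, hM.trans (two_rpow_le ?_), hc⟩
  have : (0 : ℝ) ≤ N := Nat.cast_nonneg N
  nlinarith

lemma CovAll.inf {X : Type*} [PseudoMetricSpace X] {A : Set X} {C s : ℝ} (h : CovAll A C s) :
    CovInf A C s := fun ε hε => (h ε hε).frequently

lemma CovInf.mono {X : Type*} [PseudoMetricSpace X] {A : Set X} {C s s' : ℝ} (h : CovInf A C s)
    (hs : s ≤ s') : CovInf A C s' := by
  intro ε hε
  refine (h ε hε).mono fun N hN => ?_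
  obtain ⟨M, hM, hc⟩ := hN
  refine ⟨M, hM.trans (two_rpow_le ?_), hc⟩
  have : (0 : ℝ) ≤ N := Nat.cast_nonneg N
  nlinarith

lemma CovAll.union {X : Type*} [PseudoMetricSpace X] {A B : Set X} {C s : ℝ} (h : CovAll A C s)
    (h' : CovAll B C s) : CovAll (A ∪ B) C s := by
  intro ε hε
  filter_upwards [h (ε / 2) (by linarith), h' (ε / 2) (by linarith), const_absorb 2 (half_pos hε)]
    with N hN hN' h2
  obtain ⟨M, hM, hc⟩ := hN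
  obtain ⟨M', hM', hc'⟩ := hN'
  refine ⟨M + M', ?_, hc.union hc'⟩
  push_cast
  have h3 : (2 : ℝ) ^ ((s + ε) * N) = (2 : ℝ) ^ (ε / 2 * N) * (2 : ℝ) ^ ((s + ε / 2) * N) := by
    rw [← Real.rpow_add (by norm_num)]
    congr 1
    ring
  rw [h3]
  have h4 : (0 : ℝ) < (2 : ℝ) ^ ((s + ε / 2) * N) := by positivity
  nlinarith

lemma CovAll.image {X Y : Type*} [PseudoMetricSpace X] [PseudoMetricSpace Y] {A : Set X} {C s : ℝ}
    (h : CovAll A C s) (f : X → Y) (hf : ∀ x y, dist (f x) (f y) ≤ dist x y) : CovAll (f '' A) C s := by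
  intro ε hε
  filter_upwards [h ε hε] with N hN
  obtain ⟨M, hM, hc⟩ := hN
  exact ⟨M, hM, hc.image f hf⟩

lemma CovInf.image {X Y : Type*} [PseudoMetricSpace X] [PseudoMetricSpace Y] {A : Set X} {C s : ℝ}
    (h : CovInf A C s) (f : X → Y) (hf : ∀ x y, dist (f x) (f y) ≤ dist x y) : CovInf (f '' A) C s := by
  intro ε hε
  refine (h ε hε).mono fun N hN => ?_
  obtain ⟨M, hM, hc⟩ := hN
  exact ⟨M, hM, hc.image f hf⟩

/-- the union of the slabs over `E` in all coordinate directions -/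
def slabs (m : ℕ) (E : Set ℝ) : Set (EuclideanSpace ℝ (Fin (m + 1))) :=
  {x | (∃ i, x i ∈ E) ∧ ∀ j, x j ∈ Icc (0 : ℝ) 2}

lemma slabs_mono {m : ℕ} {E E' : Set ℝ} (h : E ⊆ E') : slabs m E ⊆ slabs m E' := by
  rintro x ⟨⟨i, hi⟩, hx⟩
  exact ⟨⟨i, h hi⟩, hx⟩

lemma slabs_union {m : ℕ} {E E' : Set ℝ} : slabs m (E ∪ E') = slabs m E ∪ slabs m E' := by
  ext x
  constructor
  · rintro ⟨⟨i, hi | hi⟩, hx⟩
    · exact Or.inl ⟨⟨i, hi⟩, hx⟩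
    · exact Or.inr ⟨⟨i, hi⟩, hx⟩
  · rintro (⟨⟨i, hi⟩, hx⟩ | ⟨⟨i, hi⟩, hx⟩)
    · exact ⟨⟨i, Or.inl hi⟩, hx⟩
    · exact ⟨⟨i, Or.inr hi⟩, hx⟩

lemma Cov.slabs {m : ℕ} {E : Set ℝ} {N M : ℕ} (h : Cov E (((2 : ℝ) ^ N)⁻¹) M) :
    Cov (slabs m E) (((m : ℝ) + 1) * ((2 : ℝ) ^ N)⁻¹) ((m + 1) * (M * (2 ^ (N + 2)) ^ m)) := by
  have h1 : Pool.Agent.H63.CB.slabs m E ⊆ ⋃ i : Fin (m + 1), Pool.Agent.H63.CB.slab i E := by
    rintro x ⟨⟨i, hi⟩, hx⟩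
    exact mem_iUnion.2 ⟨i, hi, hx⟩
  have h2 := Cov.iUnion (fun i : Fin (m + 1) => h.slab i)
  rw [Fintype.card_fin] at h2
  exact h2.mono h1 le_rfl le_rfl

lemma slabs_aux {m : ℕ} {E : Set ℝ} {s ε : ℝ} {N : ℕ}
    (hK : ((m : ℝ) + 1) * ((2 : ℝ) ^ (2 * m)) ≤ (2 : ℝ) ^ (ε / 2 * N))
    (h : ∃ M : ℕ, (M : ℝ) ≤ (2 : ℝ) ^ ((s + ε / 2) * N) ∧ Cov E (1 * ((2 : ℝ) ^ N)⁻¹) M) :
    ∃ M : ℕ, (M : ℝ) ≤ (2 : ℝ) ^ ((((m : ℝ) + s) + ε) * N) ∧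
      Cov (slabs m E) (((m : ℝ) + 1) * ((2 : ℝ) ^ N)⁻¹) M := by
  obtain ⟨M, hM, hc⟩ := h
  rw [one_mul] at hc
  refine ⟨(m + 1) * (M * (2 ^ (N + 2)) ^ m), ?_, hc.slabs⟩
  push_cast
  have h1 : ((2 : ℝ) ^ (N + 2)) ^ m = (2 : ℝ) ^ (2 * m) * (2 : ℝ) ^ ((m : ℝ) * N) := by
    rw [← pow_mul, ← Real.rpow_natCast, ← Real.rpow_natCast, ← Real.rpow_add (by norm_num)]
    congr 1
    push_cast
    ring
  have h2 : (2 : ℝ) ^ ((((m : ℝ) + s) + ε) * N) =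
      (2 : ℝ) ^ (ε / 2 * N) * ((2 : ℝ) ^ ((s + ε / 2) * N) * (2 : ℝ) ^ ((m : ℝ) * N)) := by
    rw [← Real.rpow_add (by norm_num), ← Real.rpow_add (by norm_num)]
    congr 1
    ring
  rw [h1, h2]
  calc ((m : ℝ) + 1) * (M * ((2 : ℝ) ^ (2 * m) * (2 : ℝ) ^ ((m : ℝ) * N)))
      = (((m : ℝ) + 1) * (2 : ℝ) ^ (2 * m)) * (M * (2 : ℝ) ^ ((m : ℝ) * N)) := by ring
    _ ≤ (2 : ℝ) ^ (ε / 2 * N) * ((2 : ℝ) ^ ((s + ε / 2) * N) * (2 : ℝ) ^ ((m : ℝ) * N)) := by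
      gcongr

lemma CovAll.slabs {m : ℕ} {E : Set ℝ} {s : ℝ} (h : CovAll E 1 s) :
    CovAll (slabs m E) ((m : ℝ) + 1) ((m : ℝ) + s) := by
  intro ε hε
  filter_upwards [h (ε / 2) (half_pos hε), const_absorb (((m : ℝ) + 1) * ((2 : ℝ) ^ (2 * m))) (half_pos hε)]
    with N hN hK
  exact slabs_aux hK hN

lemma CovInf.slabs {m : ℕ} {E : Set ℝ} {s : ℝ} (h : CovInf E 1 s) :
    CovInf (slabs m E) ((m : ℝ) + 1) ((m : ℝ) + s) := by
  intro ε hε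
  refine ((h (ε / 2) (half_pos hε)).and_eventually
    (const_absorb (((m : ℝ) + 1) * ((2 : ℝ) ^ (2 * m))) (half_pos hε))).mono ?_
  rintro N ⟨hN, hK⟩
  exact slabs_aux hK hN

lemma dig_covAll {S : Set ℕ} {s : ℝ} (h : ∀ ε : ℝ, 0 < ε → ∀ᶠ N : ℕ in atTop, (cnt S N : ℝ) ≤ (s + ε) * N) :
    CovAll (dig S) 1 s := by
  intro ε hε
  filter_upwards [h ε hε] with N hN
  refine ⟨2 ^ (cnt S N), ?_, by simpa using dig_cov S N⟩
  push_cast
  rw [← Real.rpow_natCast]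
  exact two_rpow_le hN

lemma dig_covInf {S : Set ℕ} {s : ℝ} (h : ∀ ε : ℝ, 0 < ε → ∃ᶠ N : ℕ in atTop, (cnt S N : ℝ) ≤ (s + ε) * N) :
    CovInf (dig S) 1 s := by
  intro ε hε
  refine (h ε hε).mono fun N hN => ?_
  refine ⟨2 ^ (cnt S N), ?_, by simpa using dig_cov S N⟩
  push_cast
  rw [← Real.rpow_natCast]
  exact two_rpow_le hN

lemma pair_covAll (a b : ℝ) : CovAll ({a, b} : Set ℝ) 1 0 := by
  classical
  intro ε hε
  filter_upwards [const_absorb 2 hε] with N hN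
  refine ⟨2, by simpa using hN, {a, b}, Finset.card_le_two, ?_⟩
  intro x hx
  exact ⟨x, by simpa using hx, by rw [dist_self]; positivity⟩

lemma Icc_covAll : CovAll (Icc (0 : ℝ) 2) 1 1 := by
  have h1 : Icc (0 : ℝ) 2 ⊆ dig univ ∪ (fun x => 1 + x) '' dig univ := by
    intro x hx
    have h2 : ∀ y ∈ Icc (0 : ℝ) 1, y ∈ dig univ := by
      intro y hy
      obtain ⟨d, _, hd⟩ := Real.ofDigits_SurjOn (b := 2) (by norm_num) hy
      exact ⟨d, fun k hk => absurd (mem_univ k) hk, hd⟩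
    by_cases h : x ≤ 1
    · exact Or.inl (h2 x ⟨hx.1, h⟩)
    · push Not at h
      exact Or.inr ⟨x - 1, h2 _ ⟨by linarith, by linarith [hx.2]⟩, by simp⟩
  have h3 : CovAll (dig univ) 1 1 := by
    apply dig_covAll
    intro ε hε
    refine Eventually.of_forall fun N => ?_
    have h4 : (cnt univ N : ℝ) ≤ N := by exact_mod_cast cnt_le univ N
    have h5 : (0 : ℝ) ≤ N := Nat.cast_nonneg N
    nlinarith
  have h6 := h3.union (h3.image (fun x : ℝ => 1 + x) (fun x y => by simp [Real.dist_eq]))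
  intro ε hε
  filter_upwards [h6 ε hε] with N hN
  obtain ⟨M, hM, hc⟩ := hN
  exact ⟨M, hM, hc.mono h1 le_rfl le_rfl⟩

lemma CovAll.subset {X : Type*} [PseudoMetricSpace X] {A B : Set X} {C s : ℝ} (h : CovAll A C s)
    (hB : B ⊆ A) : CovAll B C s := by
  intro ε hε
  filter_upwards [h ε hε] with N hN
  obtain ⟨M, hM, hc⟩ := hN
  exact ⟨M, hM, hc.mono hB le_rfl le_rfl⟩

end Pool.Agent.H63.CB
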